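import Pool.Agent.Lib.MP_efe8d0_co.BdDefs

set_option autoImplicit false

namespace Pool.Agent.MP_efe8d0_co

theorem hc0_cert : holesOK hc0 0 = true := by decide +kernel
theorem hc1_cert : holesOK hc1 13 = true := by decide +kernel
theorem hc2_cert : holesOK hc2 26 = true := by decide +kernel
theorem hc3_cert : holesOK hc3 39 = true := by decide +kernel
theorem hc4_cert : holesOK hc4 52 = true := by decide +kernel
theorem hc5_cert : holesOK hc5 65 = true := by decide +kernel
theorem hc6_cert : holesOK hc6 78 = true := by decide +kernel
theorem hc7_cert : holesOK hc7 91 = true := by decide +kernel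

theorem run_cert : run hNum 56 certTop 0 0 = 0 + 1 := by decide +kernel

end Pool.Agent.MP_efe8d0_co
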