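import Pool.Agent.Lib.MP_efe8d0_co.BdData
import Pool.Agent.Lib.MP_efe8d0_co.HcData

set_option autoImplicit false

namespace Pool.Agent.MP_efe8d0_co

/-- evaluation of the argument before continuing (for kernel evaluation) -/
noncomputable def frc {α : Type} (n : Nat) (k : Nat → α) : α :=
  Nat.rec (k 0) (fun m _ => k (Nat.succ m)) n

/-- bit test -/
def tb (m e : Nat) : Bool := Nat.beq (Nat.land (Nat.shiftRight m e) 1) 1

/-- set a bit -/
def sb (m e : Nat) : Nat := Nat.lor m (Nat.shiftLeft 1 e)

/-- number of nodes all of whose edges are in `F` -/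
noncomputable def missing (F : Nat) (l : List (Nat × Nat × Nat)) : Nat :=
  List.rec 0 (fun t _ ih =>
    cond (tb F t.1) (cond (tb F t.2.1) (cond (tb F t.2.2) (Nat.succ ih) ih) ih) ih) l

/-- number of entries of `l` in `F` -/
noncomputable def cnt (F : Nat) (l : List Nat) : Nat :=
  List.rec 0 (fun e _ ih => cond (tb F e) (Nat.succ ih) ih) l

def hexL : List Nat := [0,1,2,3,4,5,6,7,8,9,10,11]
def crsL : List Nat := [12,13,14,15,16,17,18,19,20,21,22,23]
def railL : List Nat := [24,25,26,27,28,29,30,31,32,33,34,35,36,37,38,39,40,41,42,43,44,45,46,47,48,49,50,51,52,53]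

/-- the bound test: the false edges `F` already cost at least 58 -/
noncomputable def bdOK (F : Nat) : Bool :=
  Nat.ble 58 (Nat.add (Nat.mul 3 (missing F nodes)) (Nat.add (Nat.mul 9 (cnt F hexL))
    (Nat.mul 4 (cnt F crsL))))

/-- true set of a separately certified branch -/
noncomputable def getT (i : Nat) : Nat :=
  Nat.land (Nat.shiftRight hTt (Nat.mul 54 i)) 18014398509481983

/-- false set of a separately certified branch -/
noncomputable def getF (i : Nat) : Nat :=
  Nat.land (Nat.shiftRight hFt (Nat.mul 54 i)) 18014398509481983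

/-- certificate checker -/
noncomputable def run (hn n : Nat) : Nat → Nat → Nat → Nat :=
  Nat.rec (fun _ _ _ => 0) (fun _ ih c T F =>
    frc (Nat.div c 256) fun c' =>
    frc (Nat.mod c 256) fun d =>
    cond (Nat.blt d 54)
      (Nat.rec 0 (fun c2 _ => frc (sb F d) fun F' => ih c2 T F') (frc (sb T d) fun T' => ih c' T' F))
      (cond (Nat.blt d 162)
        (frc (Nat.land (Nat.shiftRight frcTab (Nat.mul 18 (Nat.sub d 54))) 262143) fun t =>
         frc (Nat.land t 63) fun e =>
         frc (Nat.land (Nat.shiftRight t 6) 63) fun a =>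
         frc (Nat.shiftRight t 12) fun b =>
          cond (tb T a)
            (cond (tb T b) (frc (sb F e) fun F' => ih c' T F')
              (cond (tb F b) (frc (sb T e) fun T' => ih c' T' F) 0))
            (cond (tb F a)
              (cond (tb T b) (frc (sb T e) fun T' => ih c' T' F)
                (cond (tb F b) (frc (sb F e) fun F' => ih c' T F') 0)) 0))
        (cond (Nat.beq d 162) (cond (bdOK F) (Nat.succ c') 0)
          (frc (Nat.mod c' 65536) fun i =>
            cond (Nat.beq d 163)
              (frc (Nat.land (Nat.shiftRight kTab (Nat.mul 54 i)) 18014398509481983) fun K =>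
                cond (Nat.blt i kNum)
                  (cond (Nat.beq (Nat.land K T) K) (Nat.succ (Nat.div c' 65536)) 0) 0)
              (cond (Nat.blt i hn)
                (cond (Nat.beq (getT i) T)
                  (cond (Nat.beq (getF i) F) (Nat.succ (Nat.div c' 65536)) 0) 0) 0))))) n

/-- all branches of a list are certified -/
noncomputable def holesOK (l : List Nat) : Nat → Bool :=
  List.rec (fun _ => true) (fun c _ ih i =>
    frc (getT i) fun T => frc (getF i) fun F =>
    Nat.rec false (fun _ _ => frc (Nat.succ i) fun j => ih j) (run 0 56 c T F)) l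

/-- number of bits of `K` among the three edges of a node -/
def nd3 (K : Nat) (t : Nat × Nat × Nat) : Nat :=
  cond (tb K t.1) (cond (tb K t.2.1) (cond (tb K t.2.2) 3 2) (cond (tb K t.2.2) 2 1))
    (cond (tb K t.2.1) (cond (tb K t.2.2) 2 1) (cond (tb K t.2.2) 1 0))

/-- every node has zero or two edges in `K` -/
noncomputable def ndAll (K : Nat) (l : List (Nat × Nat × Nat)) : Bool :=
  List.rec true (fun t _ ih => cond (Nat.beq (nd3 K t) 0) ih (cond (Nat.beq (nd3 K t) 2) ih false)) l

/-- `K` is a nonempty edge set with all degrees zero or two and weight at most 206 -/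
noncomputable def kOK (K : Nat) : Bool :=
  cond (Nat.beq K 0) false
    (cond (ndAll K nodes)
      (Nat.ble (Nat.add (Nat.mul 12 (cnt K hexL)) (Nat.add (Nat.mul 7 (cnt K crsL))
        (Nat.mul 3 (cnt K railL)))) 206) false)

noncomputable def getK (i : Nat) : Nat :=
  Nat.land (Nat.shiftRight kTab (Nat.mul 54 i)) 18014398509481983

noncomputable def allK (n : Nat) : Bool :=
  Nat.rec true (fun i ih => cond (frc (getK i) kOK) ih false) n

end Pool.Agent.MP_efe8d0_co
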