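import Pool.Agent.Lib.MP_efe8d0_co.BdSound

set_option autoImplicit false

namespace Pool.Agent.MP_efe8d0_co

/-- entry `r` of the table of forced steps -/
def ft (r : ℕ) : ℕ := Nat.land (Nat.shiftRight frcTab (Nat.mul 18 r)) 262143

def ftE (r : ℕ) : ℕ := Nat.land (ft r) 63
def ftA (r : ℕ) : ℕ := Nat.land (Nat.shiftRight (ft r) 6) 63
def ftB (r : ℕ) : ℕ := Nat.shiftRight (ft r) 12

def ftOK (r : ℕ) : Bool :=
  let t := nodes.getD (r / 3) (0, 0, 0)
  (ftE r == t.1 && ftA r == t.2.1 && ftB r == t.2.2) ||
  (ftE r == t.2.1 && ftA r == t.2.2 && ftB r == t.1) ||
  (ftE r == t.2.2 && ftA r == t.1 && ftB r == t.2.1)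

theorem ft_cert : ∀ r < 108, ftOK r = true := by decide +kernel

theorem ft_sound (x : ℕ → Bool) (hx : Val x) (r : ℕ) (hr : r < 108) :
    (x (ftE r) ^^ (x (ftA r) ^^ x (ftB r))) = false := by
  have h := ft_cert r hr
  have hl : r / 3 < nodes.length := by
    have : nodes.length = 36 := rfl
    omega
  have hm : nodes.getD (r / 3) (0, 0, 0) ∈ nodes := by
    rw [List.getD_eq_getElem _ _ hl]
    exact List.getElem_mem hl
  have hd := hx.deg _ hm
  unfold ftOK at h
  simp only [Bool.or_eq_true, Bool.and_eq_true, beq_iff_eq] at h
  generalize nodes.getD (r / 3) (0, 0, 0) = t at h hd
  rcases h with (⟨⟨h1, h2⟩, h3⟩ | ⟨⟨h1, h2⟩, h3⟩) | ⟨⟨h1, h2⟩, h3⟩ <;> rw [h1, h2, h3] <;>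
    revert hd <;> cases x t.1 <;> cases x t.2.1 <;> cases x t.2.2 <;> simp

theorem run_succ (hn n c T F : ℕ) : run hn (n + 1) c T F =
    frc (Nat.div c 256) fun c' =>
    frc (Nat.mod c 256) fun d =>
    cond (Nat.blt d 54)
      (Nat.rec 0 (fun c2 _ => frc (sb F d) fun F' => run hn n c2 T F')
        (frc (sb T d) fun T' => run hn n c' T' F))
      (cond (Nat.blt d 162)
        (frc (Nat.land (Nat.shiftRight frcTab (Nat.mul 18 (Nat.sub d 54))) 262143) fun t =>
         frc (Nat.land t 63) fun e =>
         frc (Nat.land (Nat.shiftRight t 6) 63) fun a =>
         frc (Nat.shiftRight t 12) fun b =>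
          cond (tb T a)
            (cond (tb T b) (frc (sb F e) fun F' => run hn n c' T F')
              (cond (tb F b) (frc (sb T e) fun T' => run hn n c' T' F) 0))
            (cond (tb F a)
              (cond (tb T b) (frc (sb T e) fun T' => run hn n c' T' F)
                (cond (tb F b) (frc (sb F e) fun F' => run hn n c' T F') 0)) 0))
        (cond (Nat.beq d 162) (cond (bdOK F) (Nat.succ c') 0)
          (frc (Nat.mod c' 65536) fun i =>
            cond (Nat.beq d 163)
              (frc (Nat.land (Nat.shiftRight kTab (Nat.mul 54 i)) 18014398509481983) fun K =>
                cond (Nat.blt i kNum)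
                  (cond (Nat.beq (Nat.land K T) K) (Nat.succ (Nat.div c' 65536)) 0) 0)
              (cond (Nat.blt i hn)
                (cond (Nat.beq (getT i) T)
                  (cond (Nat.beq (getF i) F) (Nat.succ (Nat.div c' 65536)) 0) 0) 0)))) := rfl

theorem run_zero (hn c T F : ℕ) : run hn 0 c T F = 0 := rfl

/-- the bound holds in the branch with true set `T` and false set `F` -/
def HoleProp (T F : ℕ) : Prop := ∀ x : ℕ → Bool, Val x → (∀ e, tb T e = true → x e = true) →
  (∀ e, tb F e = true → x e = false) → W x ≤ 206

theorem mem_sb_true (x : ℕ → Bool) (T d : ℕ) (hT : ∀ e, tb T e = true → x e = true)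
    (hd : x d = true) : ∀ e, tb (sb T d) e = true → x e = true := by
  intro e he
  rcases (tb_sb T d e).1 he with h | h
  · exact hT e h
  · rw [h]; exact hd

theorem mem_sb_false (x : ℕ → Bool) (F d : ℕ) (hF : ∀ e, tb F e = true → x e = false)
    (hd : x d = false) : ∀ e, tb (sb F d) e = true → x e = false := by
  intro e he
  rcases (tb_sb F d e).1 he with h | h
  · exact hF e h
  · rw [h]; exact hd

theorem run_sound (hn : ℕ) (hh : ∀ i, i < hn → HoleProp (getT i) (getF i)) (x : ℕ → Bool)
    (hx : Val x) (n : ℕ) : ∀ c T F r : ℕ, run hn n c T F = r + 1 →
    (∀ e, tb T e = true → x e = true) → (∀ e, tb F e = true → x e = false) → W x ≤ 206 := by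
  induction n with
  | zero => intro c T F r h; rw [run_zero] at h; omega
  | succ n ih =>
    intro c T F r h hT hF
    rw [run_succ] at h
    simp only [frc_eq] at h
    generalize hd : Nat.mod c 256 = d at h
    generalize Nat.div c 256 = c' at h
    cases h54 : Nat.blt d 54 with
    | true =>
      rw [h54] at h
      simp only [cond_true] at h
      cases hR : run hn n c' (sb T d) F with
      | zero => rw [hR] at h; simp at h
      | succ c2 =>
        rw [hR] at h
        simp only at h
        cases hxd : x d with
        | true => exact ih c' (sb T d) F c2 hR (mem_sb_true x T d hT hxd) hF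
        | false => exact ih c2 T (sb F d) r h hT (mem_sb_false x F d hF hxd)
    | false =>
      rw [h54] at h
      simp only [cond_false] at h
      cases h162 : Nat.blt d 162 with
      | true =>
        rw [h162] at h
        simp only [cond_true] at h
        have hdl : d < 162 := by
          have : Nat.ble (d + 1) 162 = true := h162
          exact Nat.le_of_ble_eq_true this
        have hdg : ¬ (d < 54) := by
          intro hlt
          have : Nat.blt d 54 = true := Nat.ble_eq_true_of_le hlt
          rw [h54] at this
          exact absurd this (by simp)
        have hfs := ft_sound x hx (d - 54) (by omega)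
        have e1 : Nat.land (Nat.land (Nat.shiftRight frcTab (Nat.mul 18 (Nat.sub d 54))) 262143) 63
          = ftE (d - 54) := rfl
        have e2 : Nat.land (Nat.shiftRight (Nat.land (Nat.shiftRight frcTab
          (Nat.mul 18 (Nat.sub d 54))) 262143) 6) 63 = ftA (d - 54) := rfl
        have e3 : Nat.shiftRight (Nat.land (Nat.shiftRight frcTab
          (Nat.mul 18 (Nat.sub d 54))) 262143) 12 = ftB (d - 54) := rfl
        rw [e1, e2, e3] at h
        generalize ftE (d - 54) = e at h hfs
        generalize ftA (d - 54) = a at h hfs
        generalize ftB (d - 54) = b at h hfs
        cases hTa : tb T a with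
        | true =>
          rw [hTa] at h
          simp only [cond_true] at h
          have xa := hT a hTa
          cases hTb : tb T b with
          | true =>
            rw [hTb] at h
            simp only [cond_true] at h
            have xb := hT b hTb
            have xe : x e = false := by
              rw [xa, xb] at hfs; revert hfs; cases x e <;> simp
            exact ih c' T (sb F e) r h hT (mem_sb_false x F e hF xe)
          | false =>
            rw [hTb] at h
            simp only [cond_false] at h
            cases hFb : tb F b with
            | true =>
              rw [hFb] at h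
              simp only [cond_true] at h
              have xb := hF b hFb
              have xe : x e = true := by
                rw [xa, xb] at hfs; revert hfs; cases x e <;> simp
              exact ih c' (sb T e) F r h (mem_sb_true x T e hT xe) hF
            | false => rw [hFb] at h; simp at h
        | false =>
          rw [hTa] at h
          simp only [cond_false] at h
          cases hFa : tb F a with
          | false => rw [hFa] at h; simp at h
          | true =>
            rw [hFa] at h
            simp only [cond_true] at h
            have xa := hF a hFa
            cases hTb : tb T b with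
            | true =>
              rw [hTb] at h
              simp only [cond_true] at h
              have xb := hT b hTb
              have xe : x e = true := by
                rw [xa, xb] at hfs; revert hfs; cases x e <;> simp
              exact ih c' (sb T e) F r h (mem_sb_true x T e hT xe) hF
            | false =>
              rw [hTb] at h
              simp only [cond_false] at h
              cases hFb : tb F b with
              | true =>
                rw [hFb] at h
                simp only [cond_true] at h
                have xb := hF b hFb
                have xe : x e = false := by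
                  rw [xa, xb] at hfs; revert hfs; cases x e <;> simp
                exact ih c' T (sb F e) r h hT (mem_sb_false x F e hF xe)
              | false => rw [hFb] at h; simp at h
      | false =>
        rw [h162] at h
        simp only [cond_false] at h
        cases hb : Nat.beq d 162 with
        | true =>
          rw [hb] at h
          simp only [cond_true] at h
          cases hbd : bdOK F with
          | true => exact bd_sound x hx F hF hbd
          | false => rw [hbd] at h; simp at h
        | false =>
          rw [hb] at h
          simp only [cond_false] at h
          have e1 : Nat.land (Nat.shiftRight kTab (Nat.mul 54 (Nat.mod c' 65536))) 18014398509481983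
            = getK (Nat.mod c' 65536) := rfl
          rw [e1] at h
          generalize Nat.mod c' 65536 = i at h
          cases h163 : Nat.beq d 163 with
          | true =>
            rw [h163] at h
            simp only [cond_true] at h
            cases hi : Nat.blt i kNum with
            | false => rw [hi] at h; simp at h
            | true =>
              rw [hi] at h
              simp only [cond_true] at h
              have hil : i < kNum := by
                have : Nat.ble (i + 1) kNum = true := hi
                exact Nat.le_of_ble_eq_true this
              have hkok := getK_allK kNum allK_cert i hil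
              generalize getK i = K at h hkok
              cases hl : Nat.beq (Nat.land K T) K with
              | false => rw [hl] at h; simp at h
              | true =>
                have hkt : K &&& T = K := Nat.eq_of_beq_eq_true hl
                refine kOK_sound x hx K hkok ?_
                intro e he
                apply hT
                rw [tb_eq] at he ⊢
                rw [← hkt, Nat.testBit_and] at he
                exact (Bool.and_eq_true _ _ ▸ he).2
          | false =>
            rw [h163] at h
            simp only [cond_false] at h
            cases hi : Nat.blt i hn with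
            | false => rw [hi] at h; simp at h
            | true =>
              rw [hi] at h
              simp only [cond_true] at h
              have hil : i < hn := by
                have : Nat.ble (i + 1) hn = true := hi
                exact Nat.le_of_ble_eq_true this
              have hp := hh i hil
              cases h1 : Nat.beq (getT i) T with
              | false => rw [h1] at h; simp at h
              | true =>
                rw [h1] at h
                simp only [cond_true] at h
                cases h2 : Nat.beq (getF i) F with
                | false => rw [h2] at h; simp at h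
                | true =>
                  rw [Nat.eq_of_beq_eq_true h1, Nat.eq_of_beq_eq_true h2] at hp
                  exact hp x hx hT hF

theorem holesOK_sound (l : List ℕ) : ∀ i, holesOK l i = true → ∀ j, j < l.length →
    HoleProp (getT (i + j)) (getF (i + j)) := by
  induction l with
  | nil => intro i _ j hj; exact absurd hj (Nat.not_lt_zero _)
  | cons c l ih =>
    intro i h j hj
    have h1 : holesOK (c :: l) i = frc (getT i) fun T => frc (getF i) fun F =>
      Nat.rec false (fun _ _ => frc (Nat.succ i) fun j => holesOK l j) (run 0 56 c T F) := rfl
    rw [h1] at h
    simp only [frc_eq] at h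
    cases hR : run 0 56 c (getT i) (getF i) with
    | zero => rw [hR] at h; exact absurd h (by simp)
    | succ r =>
      rw [hR] at h
      simp only at h
      cases j with
      | zero =>
        intro x hx hT hF
        exact run_sound 0 (fun i hi => absurd hi (Nat.not_lt_zero _)) x hx 56 c _ _ r hR hT hF
      | succ j =>
        have h2 := ih (i + 1) h j (by rw [List.length_cons] at hj; omega)
        have e : i + (j + 1) = i + 1 + j := by omega
        rw [e]
        exact h2

theorem holes (i : ℕ) (hi : i < hNum) : HoleProp (getT i) (getF i) := by
  have l0 : hc0.length = 13 := rfl
  have l1 : hc1.length = 13 := rfl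
  have l2 : hc2.length = 13 := rfl
  have l3 : hc3.length = 13 := rfl
  have l4 : hc4.length = 13 := rfl
  have l5 : hc5.length = 13 := rfl
  have l6 : hc6.length = 13 := rfl
  have l7 : hc7.length = 10 := rfl
  have hn : hNum = 101 := rfl
  have key : ∀ (l : List ℕ) (s : ℕ), holesOK l s = true → s ≤ i → i < s + l.length →
      HoleProp (getT i) (getF i) := by
    intro l s h h1 h2
    have h3 := holesOK_sound l s h (i - s) (by omega)
    have e : s + (i - s) = i := by omega
    rw [e] at h3
    exact h3
  rcases Nat.lt_or_ge i 13 with h | h
  · exact key hc0 0 hc0_cert (by omega) (by omega)
  rcases Nat.lt_or_ge i 26 with h' | h'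
  · exact key hc1 13 hc1_cert (by omega) (by omega)
  rcases Nat.lt_or_ge i 39 with h | h
  · exact key hc2 26 hc2_cert (by omega) (by omega)
  rcases Nat.lt_or_ge i 52 with h' | h'
  · exact key hc3 39 hc3_cert (by omega) (by omega)
  rcases Nat.lt_or_ge i 65 with h | h
  · exact key hc4 52 hc4_cert (by omega) (by omega)
  rcases Nat.lt_or_ge i 78 with h' | h'
  · exact key hc5 65 hc5_cert (by omega) (by omega)
  rcases Nat.lt_or_ge i 91 with h | h
  · exact key hc6 78 hc6_cert (by omega) (by omega)
  · exact key hc7 91 hc7_cert (by omega) (by omega)

/-- Every cycle has weight at most 206. -/
theorem W_le (x : ℕ → Bool) (hx : Val x) : W x ≤ 206 := by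
  refine run_sound hNum holes x hx 56 certTop 0 0 0 run_cert ?_ ?_
  · intro e he
    rw [tb_eq] at he
    simp at he
  · intro e he
    rw [tb_eq] at he
    simp at he

end Pool.Agent.MP_efe8d0_co
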