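import Pool.Agent.Lib.MP_efe8d0_co.BdDefs

set_option autoImplicit false

namespace Pool.Agent.MP_efe8d0_co

theorem allK_cert : allK kNum = true := by decide +kernel

end Pool.Agent.MP_efe8d0_co
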