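import Pool.Agent.Lib.MP_efe8d0_co.BdCert
import Pool.Agent.Lib.MP_efe8d0_co.KCert

set_option autoImplicit false

namespace Pool.Agent.MP_efe8d0_co

theorem frc_eq {α : Type} (n : Nat) (k : Nat → α) : frc n k = k n := by
  cases n <;> rfl

theorem tb_eq (m e : Nat) : tb m e = m.testBit e := by
  unfold tb Nat.testBit
  have h1 : Nat.land (Nat.shiftRight m e) 1 = 1 &&& (m >>> e) := by
    rw [Nat.and_comm]; rfl
  rw [h1]
  have h2 : 1 &&& (m >>> e) = 0 ∨ 1 &&& (m >>> e) = 1 := by
    have : 1 &&& (m >>> e) ≤ 1 := Nat.and_le_left
    omega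
  rcases h2 with h | h <;> rw [h] <;> rfl

theorem tb_sb (m d e : Nat) : tb (sb m d) e = true ↔ tb m e = true ∨ e = d := by
  rw [tb_eq, tb_eq]
  have : sb m d = m ||| (1 <<< d) := rfl
  rw [this, Nat.testBit_or, Nat.one_shiftLeft, Nat.testBit_two_pow]
  by_cases h : e = d
  · subst h; simp
  · have h' : ¬ (d = e) := fun h' => h h'.symm
    simp [h, h']

/-- The properties of the edge set of a cycle. -/
structure Val (x : ℕ → Bool) : Prop where
  deg : ∀ t ∈ nodes, (x t.1 ^^ (x t.2.1 ^^ x t.2.2)) = false
  conn : ∀ K : ℕ → Bool, (∃ e, K e = true) → (∀ e, K e = true → x e = true) →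
    (∀ t ∈ nodes, ∀ e f, (e = t.1 ∨ e = t.2.1 ∨ e = t.2.2) →
      (f = t.1 ∨ f = t.2.1 ∨ f = t.2.2) → K e = true → x f = true → K f = true) →
    ∀ e, x e = true → K e = true
  sup : ∀ e, x e = true → e < 54

def b2n (b : Bool) : ℕ := cond b 1 0

/-- number of elements of a list selected by `x` -/
def sl (x : ℕ → Bool) (l : List ℕ) : ℕ := (l.map fun e => b2n (x e)).sum

/-- weight of `x` -/
def W (x : ℕ → Bool) : ℕ := 12 * sl x hexL + 7 * sl x crsL + 3 * sl x railL

def nsum (x : ℕ → Bool) (l : List (ℕ × ℕ × ℕ)) : ℕ :=
  (l.map fun t => b2n (x t.1) + b2n (x t.2.1) + b2n (x t.2.2)).sum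

theorem nsum_nodes (x : ℕ → Bool) :
    nsum x nodes = 2 * (sl x hexL + sl x crsL + sl x railL) := by
  simp only [nsum, nodes, sl, hexL, crsL, railL, List.map_cons, List.map_nil, List.sum_cons,
    List.sum_nil]
  ring

theorem sl_cnt (x : ℕ → Bool) (F : ℕ) (hF : ∀ e, tb F e = true → x e = false) (l : List ℕ) :
    sl x l + cnt F l ≤ l.length := by
  induction l with
  | nil => simp [sl, cnt]
  | cons e l ih =>
    have h1 : sl x (e :: l) = b2n (x e) + sl x l := by simp [sl]
    have h2 : cnt F (e :: l) = cond (tb F e) (Nat.succ (cnt F l)) (cnt F l) := rfl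
    rw [h1, h2, List.length_cons]
    cases h : tb F e with
    | true =>
      have := hF e h
      rw [this]
      simp only [b2n, cond_false, cond_true]
      omega
    | false =>
      simp only [cond_false]
      have : b2n (x e) ≤ 1 := by unfold b2n; cases x e <;> simp
      omega

theorem nsum_missing (x : ℕ → Bool) (F : ℕ) (hF : ∀ e, tb F e = true → x e = false)
    (l : List (ℕ × ℕ × ℕ)) (hd : ∀ t ∈ l, (x t.1 ^^ (x t.2.1 ^^ x t.2.2)) = false) :
    nsum x l + 2 * missing F l ≤ 2 * l.length := by
  induction l with
  | nil => simp [nsum, missing]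
  | cons t l ih =>
    have ih' := ih (fun t ht => hd t (List.mem_cons_of_mem _ ht))
    have h1 : nsum x (t :: l) = (b2n (x t.1) + b2n (x t.2.1) + b2n (x t.2.2)) + nsum x l := by
      simp [nsum]
    have h2 : missing F (t :: l) =
      cond (tb F t.1) (cond (tb F t.2.1) (cond (tb F t.2.2) (Nat.succ (missing F l)) (missing F l))
        (missing F l)) (missing F l) := rfl
    have hdt := hd t List.mem_cons_self
    have h3 : b2n (x t.1) + b2n (x t.2.1) + b2n (x t.2.2) ≤ 2 := by
      revert hdt
      cases x t.1 <;> cases x t.2.1 <;> cases x t.2.2 <;> simp [b2n]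
    rw [h1, h2, List.length_cons]
    cases ha : tb F t.1 with
    | false => simp only [cond_false]; omega
    | true =>
      cases hb : tb F t.2.1 with
      | false => simp only [cond_false, cond_true]; omega
      | true =>
        cases hc : tb F t.2.2 with
        | false => simp only [cond_false, cond_true]; omega
        | true =>
          simp only [cond_true]
          have e1 := hF _ ha
          have e2 := hF _ hb
          have e3 := hF _ hc
          rw [e1, e2, e3]
          simp only [b2n, cond_false]
          omega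

theorem bd_sound (x : ℕ → Bool) (hx : Val x) (F : ℕ) (hF : ∀ e, tb F e = true → x e = false)
    (h : bdOK F = true) : W x ≤ 206 := by
  have h' : 58 ≤ 3 * missing F nodes + (9 * cnt F hexL + 4 * cnt F crsL) := Nat.le_of_ble_eq_true h
  have h1 := nsum_missing x F hF nodes hx.deg
  have h2 := sl_cnt x F hF hexL
  have h3 := sl_cnt x F hF crsL
  have h4 := nsum_nodes x
  have l1 : nodes.length = 36 := rfl
  have l2 : hexL.length = 12 := rfl
  have l3 : crsL.length = 12 := rfl
  unfold W
  omega

theorem sl_tb (K : ℕ) (l : List ℕ) : sl (tb K) l = cnt K l := by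
  induction l with
  | nil => rfl
  | cons e l ih =>
    have h1 : sl (tb K) (e :: l) = b2n (tb K e) + sl (tb K) l := by simp [sl]
    have h2 : cnt K (e :: l) = cond (tb K e) (Nat.succ (cnt K l)) (cnt K l) := rfl
    rw [h1, h2, ih]
    cases tb K e <;> simp [b2n, Nat.add_comm]

theorem ndAll_spec (K : ℕ) (l : List (ℕ × ℕ × ℕ)) (h : ndAll K l = true) :
    ∀ t ∈ l, nd3 K t = 0 ∨ nd3 K t = 2 := by
  induction l with
  | nil => intro t ht; simp at ht
  | cons s l ih =>
    have h2 : ndAll K (s :: l) = cond (Nat.beq (nd3 K s) 0) (ndAll K l)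
      (cond (Nat.beq (nd3 K s) 2) (ndAll K l) false) := rfl
    rw [h2] at h
    intro t ht
    rcases List.mem_cons.1 ht with rfl | ht
    · cases h0 : Nat.beq (nd3 K t) 0 with
      | true => left; exact Nat.eq_of_beq_eq_true h0
      | false =>
        rw [h0] at h
        simp only [cond_false] at h
        cases h1 : Nat.beq (nd3 K t) 2 with
        | true => right; exact Nat.eq_of_beq_eq_true h1
        | false => rw [h1] at h; simp at h
    · apply ih _ t ht
      cases h0 : Nat.beq (nd3 K s) 0 with
      | true => rw [h0] at h; simpa using h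
      | false =>
        rw [h0] at h
        simp only [cond_false] at h
        cases h1 : Nat.beq (nd3 K s) 2 with
        | true => rw [h1] at h; simpa using h
        | false => rw [h1] at h; simp at h

theorem kOK_sound (x : ℕ → Bool) (hx : Val x) (K : ℕ) (hK : kOK K = true)
    (hT : ∀ e, tb K e = true → x e = true) : W x ≤ 206 := by
  unfold kOK at hK
  cases h0 : Nat.beq K 0 with
  | true => rw [h0] at hK; simp at hK
  | false =>
    rw [h0] at hK
    simp only [cond_false] at hK
    cases h1 : ndAll K nodes with
    | false => rw [h1] at hK; simp at hK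
    | true =>
      rw [h1] at hK
      simp only [cond_true] at hK
      have hw : 12 * cnt K hexL + (7 * cnt K crsL + 3 * cnt K railL) ≤ 206 :=
        Nat.le_of_ble_eq_true hK
      have hK0 : K ≠ 0 := Nat.ne_of_beq_eq_false h0
      have hne : ∃ e, tb K e = true := by
        obtain ⟨i, hi⟩ := Nat.exists_testBit_of_ne_zero hK0
        exact ⟨i, by rw [tb_eq]; exact hi⟩
      have hsub := hx.conn (tb K) hne hT ?_
      · have hxe : ∀ e, x e = tb K e := by
          intro e
          cases hxe : x e with
          | true => exact (hsub e hxe).symm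
          | false =>
            cases hk : tb K e with
            | true => have := hT e hk; rw [hxe] at this; exact absurd this (by simp)
            | false => rfl
        have hx' : x = tb K := funext hxe
        rw [hx']
        unfold W
        rw [sl_tb, sl_tb, sl_tb]
        omega
      · intro t ht e f he hf hKe hxf
        have hd := hx.deg t ht
        have h3 := ndAll_spec K nodes h1 t ht
        have ha := hT t.1
        have hb := hT t.2.1
        have hc := hT t.2.2
        unfold nd3 at h3
        cases ka : tb K t.1 <;> cases kb : tb K t.2.1 <;> cases kc : tb K t.2.2 <;>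
          cases xa : x t.1 <;> cases xb : x t.2.1 <;> cases xc : x t.2.2 <;>
          simp [ka, kb, kc] at h3 <;> simp [ka, kb, kc, xa, xb, xc] at ha hb hc hd <;>
          rcases he with rfl | rfl | rfl <;> rcases hf with rfl | rfl | rfl <;>
          simp_all

theorem getK_allK (n : ℕ) (h : allK n = true) : ∀ i, i < n → kOK (getK i) = true := by
  induction n with
  | zero => intro i hi; omega
  | succ n ih =>
    have h2 : allK (n + 1) = cond (frc (getK n) kOK) (allK n) false := rfl
    rw [h2, frc_eq] at h
    intro i hi
    cases hk : kOK (getK n) with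
    | false => rw [hk] at h; simp at h
    | true =>
      rw [hk] at h
      simp only [cond_true] at h
      rcases Nat.lt_succ_iff_lt_or_eq.1 hi with h3 | h3
      · exact ih h i h3
      · rw [h3]; exact hk

end Pool.Agent.MP_efe8d0_co
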