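import Mathlib

set_option autoImplicit false

namespace Pool.Agent.MP_efe8d0_co

/-- packed inverse of the rank table -/
def ivT : Nat := 0x20140c00010281a0c0484c2c15090703e1e0d8945027120b862301905c30190d050904e2692a0f0d84415a0d36933d349d4e264c867331a13c9f5028536b65cae1744c259409e493f205048441b51aad66bb450086429fd68b75e2ed6aea783bddaee1b0f076387abe1eef495cba5b2a9049a4b2392426150b8641a7b439f4ee1f1288c4c40211108c3a512b958a6da6eb71bc3a1c8f87a37361bce06d512954ca853954a8592c1490e8d4622916f67dbe9f2f35f30580c2389c8e674372fd8ac461af5108e47a2548aa54a8db0db7037db3108b456290e8c46e351c148a8562c13168c05f2e38dcce573978ba623096d20964aa495ab057ac41c0f08044163f2110c80753c1e4f67a4a24d309748b1998cb64b2888452311c82fe823fe0300964c6612f94cce6d379acfe8141a14f265389ccea68fd81c09f8c766b3990773e9f0ecab572cd64ac70b91d2e8714663f1e8ec5e432794489d6f1793b0ca6b351a4c62f1a8d0662d0081c1003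

end Pool.Agent.MP_efe8d0_co
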