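import Pool.Agent.Lib.MP_efe8d0_co.Low1
import Pool.Agent.Lib.MP_efe8d0_co.RkData

set_option autoImplicit false

namespace Pool.Agent.MP_efe8d0_co

/-- a graph with an st-numbering stays connected after deleting a vertex -/
theorem conn_of_rank {V : Type} (H : SimpleGraph V) (φ : V → ℕ) (s t : V) (hst : H.Adj s t)
    (hinj : ∀ u v, φ u = φ v → u = v)
    (hD : ∀ u, u ≠ s → ∃ w, H.Adj u w ∧ φ w < φ u)
    (hU : ∀ u, u ≠ t → ∃ w, H.Adj u w ∧ φ u < φ w)
    (M : ℕ) (hM : ∀ u, φ u ≤ M) (v : V) : (H.induce ({v}ᶜ : Set V)).Connected := by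
  have down : ∀ n u, φ u = n → φ u < φ v → ∃ (hu : u ∈ ({v}ᶜ : Set V)) (hs : s ∈ ({v}ᶜ : Set V)),
      (H.induce ({v}ᶜ : Set V)).Reachable ⟨u, hu⟩ ⟨s, hs⟩ := by
    intro n
    induction n using Nat.strong_induction_on with
    | _ n ih =>
      intro u hn hlt
      have hu : u ∈ ({v}ᶜ : Set V) := by
        intro h
        have : u = v := h
        rw [this] at hlt
        exact absurd hlt (lt_irrefl _)
      by_cases hs : u = s
      · subst hs
        exact ⟨hu, hu, SimpleGraph.Reachable.refl _⟩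
      · obtain ⟨w, hw, hwl⟩ := hD u hs
        obtain ⟨hw', hs', hr⟩ := ih (φ w) (by omega) w rfl (by omega)
        refine ⟨hu, hs', ?_⟩
        have ha : (H.induce ({v}ᶜ : Set V)).Adj ⟨u, hu⟩ ⟨w, hw'⟩ := hw
        exact ha.reachable.trans hr
  have up : ∀ n u, M - φ u = n → φ v < φ u → ∃ (hu : u ∈ ({v}ᶜ : Set V)) (ht : t ∈ ({v}ᶜ : Set V)),
      (H.induce ({v}ᶜ : Set V)).Reachable ⟨u, hu⟩ ⟨t, ht⟩ := by
    intro n
    induction n using Nat.strong_induction_on with
    | _ n ih =>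
      intro u hn hlt
      have hu : u ∈ ({v}ᶜ : Set V) := by
        intro h
        have : u = v := h
        rw [this] at hlt
        exact absurd hlt (lt_irrefl _)
      by_cases ht : u = t
      · subst ht
        exact ⟨hu, hu, SimpleGraph.Reachable.refl _⟩
      · obtain ⟨w, hw, hwl⟩ := hU u ht
        have hMw := hM w
        obtain ⟨hw', ht', hr⟩ := ih (M - φ w) (by omega) w rfl (by omega)
        refine ⟨hu, ht', ?_⟩
        have ha : (H.induce ({v}ᶜ : Set V)).Adj ⟨u, hu⟩ ⟨w, hw'⟩ := hw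
        exact ha.reachable.trans hr
  rw [SimpleGraph.connected_iff_exists_forall_reachable]
  by_cases hsv : s = v
  · have htv : t ∈ ({v}ᶜ : Set V) := by
      intro h
      have h' : t = v := h
      rw [hsv, h'] at hst
      exact H.loopless.irrefl v hst
    refine ⟨⟨t, htv⟩, ?_⟩
    rintro ⟨u, hu⟩
    have hne : φ u ≠ φ v := fun h => hu (hinj _ _ h)
    rcases Nat.lt_or_gt_of_ne hne with h | h
    · obtain ⟨_, hs, _⟩ := down _ u rfl h
      exact absurd hsv hs
    · obtain ⟨_, _, hr⟩ := up _ u rfl h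
      exact hr.symm
  · refine ⟨⟨s, hsv⟩, ?_⟩
    rintro ⟨u, hu⟩
    have hne : φ u ≠ φ v := fun h => hu (hinj _ _ h)
    rcases Nat.lt_or_gt_of_ne hne with h | h
    · obtain ⟨_, _, hr⟩ := down _ u rfl h
      exact hr.symm
    · obtain ⟨_, ht, hr⟩ := up _ u rfl h
      have ha : (H.induce ({v}ᶜ : Set V)).Adj ⟨s, hsv⟩ ⟨t, ht⟩ := hst
      exact ha.reachable.trans hr.symm

/-- rank of a fragment vertex -/
def rk (p : Fin 36 × Fin 9) : ℕ := Nat.land (Nat.shiftRight rkT (9 * (9 * p.1.val + p.2.val))) 511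

/-- inverse of the rank -/
def iv (n : ℕ) : Fin 36 × Fin 9 :=
  (Fin.ofNat 36 (Nat.land (Nat.shiftRight ivT (9 * n)) 511 / 9),
   Fin.ofNat 9 (Nat.land (Nat.shiftRight ivT (9 * n)) 511 % 9))

theorem iv_rk : ∀ p : Fin 36 × Fin 9, iv (rk p) = p := by decide +kernel

theorem rk_inj (p p' : Fin 36 × Fin 9) (h : rk p = rk p') : p = p' := by
  rw [← iv_rk p, ← iv_rk p', h]

theorem rk_le : ∀ p : Fin 36 × Fin 9, rk p ≤ 323 := by decide +kernel

def sV : Fin 36 × Fin 9 := (0, 3)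
def tV : Fin 36 × Fin 9 := (0, 4)

/-- far terminal across the link at a terminal -/
def far (i : Fin 36) (d : Fin 3) : Fin 36 × Fin 9 := ((oth (i, d)).1, tm (oth (i, d)).2)

theorem rk_down : ∀ p : Fin 36 × Fin 9, p = sV ∨ (∃ b, fadj p.2 b = true ∧ rk (p.1, b) < rk p) ∨
    (∃ d, tm d = p.2 ∧ rk (far p.1 d) < rk p) := by decide +kernel

theorem rk_up : ∀ p : Fin 36 × Fin 9, p = tV ∨ (∃ b, fadj p.2 b = true ∧ rk p < rk (p.1, b)) ∨
    (∃ d, tm d = p.2 ∧ rk p < rk (far p.1 d)) := by decide +kernel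

theorem ln_le (e : ℕ) : ln e ≤ 28 := by unfold ln; split_ifs <;> omega

theorem rk_ne : ∀ e : Fin 54, rk (T0 e) ≠ rk (T1 e) := by decide +kernel

/-- the st-numbering -/
def phi : VT → ℕ
  | .inl p => 64 * rk p
  | .inr y => if rk (T0 y.1) < rk (T1 y.1) then 64 * rk (T0 y.1) + 1 + y.2.val
      else 64 * rk (T1 y.1) + (ln y.1.val - y.2.val)

theorem phi_inl (p : Fin 36 × Fin 9) : phi (.inl p) = 64 * rk p := rfl
theorem phi_pos (e : Fin 54) (k : Fin (ln e.val)) (h : rk (T0 e) < rk (T1 e)) :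
    phi (.inr ⟨e, k⟩) = 64 * rk (T0 e) + 1 + k.val := if_pos h
theorem phi_neg (e : Fin 54) (k : Fin (ln e.val)) (h : ¬ rk (T0 e) < rk (T1 e)) :
    phi (.inr ⟨e, k⟩) = 64 * rk (T1 e) + (ln e.val - k.val) := if_neg h

theorem tm_inj' : ∀ d d' : Fin 3, tm d = tm d' → d = d' := by decide

theorem T00 (e e' : Fin 54) (h : T0 e = T0 e') : e = e' := by
  unfold T0 at h
  have h1 := (Prod.mk.inj h).1
  have h2 := tm_inj' _ _ (Prod.mk.inj h).2
  rw [← inc_e0 e, ← inc_e0 e', h1, h2]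

theorem T11 (e e' : Fin 54) (h : T1 e = T1 e') : e = e' := by
  unfold T1 at h
  have h1 := (Prod.mk.inj h).1
  have h2 := tm_inj' _ _ (Prod.mk.inj h).2
  rw [← inc_e1 e, ← inc_e1 e', h1, h2]

theorem T01 (e e' : Fin 54) (h : T0 e = T1 e') : e = e' := by
  unfold T0 T1 at h
  have h1 := (Prod.mk.inj h).1
  have h2 := tm_inj' _ _ (Prod.mk.inj h).2
  rw [← inc_e0 e, ← inc_e1 e', h1, h2]

theorem phi_inj (u v : VT) (h : phi u = phi v) : u = v := by
  have off : ∀ (e : Fin 54) (k : Fin (ln e.val)), ∃ r o, phi (.inr ⟨e, k⟩) = 64 * r + o ∧ 1 ≤ o ∧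
      o ≤ 28 := by
    intro e k
    have h28 := ln_le e.val
    have hk := k.isLt
    by_cases hr : rk (T0 e) < rk (T1 e)
    · refine ⟨rk (T0 e), 1 + k.val, ?_, by omega, by omega⟩
      rw [phi_pos e k hr]
      omega
    · exact ⟨rk (T1 e), ln e.val - k.val, phi_neg e k hr, by omega, by omega⟩
  rcases u with p | ⟨e, k⟩ <;> rcases v with p' | ⟨e', k'⟩
  · rw [phi_inl, phi_inl] at h
    rw [rk_inj p p' (by omega)]
  · rw [phi_inl] at h
    obtain ⟨r, o, h1, h2, h3⟩ := off e' k'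
    rw [h1] at h
    omega
  · rw [phi_inl] at h
    obtain ⟨r, o, h1, h2, h3⟩ := off e k
    rw [h1] at h
    omega
  · have h28 := ln_le e.val
    have hk := k.isLt
    have h28' := ln_le e'.val
    have hk' := k'.isLt
    by_cases hr : rk (T0 e) < rk (T1 e) <;> by_cases hr' : rk (T0 e') < rk (T1 e')
    · rw [phi_pos e k hr, phi_pos e' k' hr'] at h
      have h1 : rk (T0 e) = rk (T0 e') := by omega
      have h2 := T00 e e' (rk_inj _ _ h1)
      subst h2
      have h3 : k = k' := Fin.ext (by omega)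
      rw [h3]
    · rw [phi_pos e k hr, phi_neg e' k' hr'] at h
      have h1 : rk (T0 e) = rk (T1 e') := by omega
      have h2 := T01 e e' (rk_inj _ _ h1)
      subst h2
      exact absurd hr hr'
    · rw [phi_neg e k hr, phi_pos e' k' hr'] at h
      have h1 : rk (T0 e') = rk (T1 e) := by omega
      have h2 := T01 e' e (rk_inj _ _ h1)
      subst h2
      exact absurd hr' hr
    · rw [phi_neg e k hr, phi_neg e' k' hr'] at h
      have h1 : rk (T1 e) = rk (T1 e') := by omega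
      have h2 := T11 e e' (rk_inj _ _ h1)
      subst h2
      have h3 : k = k' := Fin.ext (by omega)
      rw [h3]

theorem far_cases (i : Fin 36) (d : Fin 3) :
    (T0 (inc i d) = (i, tm d) ∧ far i d = T1 (inc i d)) ∨
    (T1 (inc i d) = (i, tm d) ∧ far i d = T0 (inc i d)) := by
  unfold far oth
  by_cases h : e0 (inc i d) = (i, d)
  · left
    rw [if_pos h]
    refine ⟨?_, rfl⟩
    unfold T0
    rw [h]
  · right
    rw [if_neg h]
    refine ⟨?_, rfl⟩
    have h1 : e1 (inc i d) = (i, d) := by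
      rcases end_inc i d with h' | h'
      · exact absurd h' h
      · exact h'
    unfold T1
    rw [h1]

theorem phi_down (u : VT) (hu : u ≠ .inl sV) : ∃ w, G.Adj u w ∧ phi w < phi u := by
  rcases u with p | ⟨e, k⟩
  · rcases rk_down p with h | ⟨b, hb, hr⟩ | ⟨d, hd, hr⟩
    · exact absurd (by rw [h]) hu
    · refine ⟨.inl (p.1, b), ⟨rfl, hb⟩, ?_⟩
      rw [phi_inl, phi_inl]
      omega
    · have hp : p = (p.1, tm d) := by rw [hd]
      have h28 := ln_le (inc p.1 d).val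
      have hpos := ln_pos (inc p.1 d).val
      rcases far_cases p.1 d with ⟨h1, h2⟩ | ⟨h1, h2⟩
      · rw [h2] at hr
        rw [← hp] at h1
        refine ⟨.inr ⟨inc p.1 d, ⟨0, hpos⟩⟩, Or.inl ⟨rfl, h1⟩, ?_⟩
        have h3 : rk (T0 (inc p.1 d)) = rk p := congrArg rk h1
        rw [phi_neg _ _ (by omega), phi_inl]
        simp only
        omega
      · rw [h2] at hr
        rw [← hp] at h1
        refine ⟨.inr ⟨inc p.1 d, ⟨ln (inc p.1 d).val - 1, by omega⟩⟩,
          Or.inr ⟨by simp only; omega, h1⟩, ?_⟩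
        have h3 : rk (T1 (inc p.1 d)) = rk p := congrArg rk h1
        rw [phi_pos _ _ (by omega), phi_inl]
        simp only
        omega
  · have h28 := ln_le e.val
    have hk := k.isLt
    by_cases hr : rk (T0 e) < rk (T1 e)
    · by_cases h0 : k.val = 0
      · refine ⟨.inl (T0 e), Or.inl ⟨h0, rfl⟩, ?_⟩
        rw [phi_pos e k hr, phi_inl]
        omega
      · refine ⟨.inr ⟨e, ⟨k.val - 1, by omega⟩⟩, ⟨rfl, Or.inr (by simp only; omega)⟩, ?_⟩
        rw [phi_pos e _ hr, phi_pos e _ hr]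
        simp only
        omega
    · by_cases h0 : k.val + 1 = ln e.val
      · refine ⟨.inl (T1 e), Or.inr ⟨h0, rfl⟩, ?_⟩
        rw [phi_neg e k hr, phi_inl]
        omega
      · refine ⟨.inr ⟨e, ⟨k.val + 1, by omega⟩⟩, ⟨rfl, Or.inl rfl⟩, ?_⟩
        rw [phi_neg e _ hr, phi_neg e _ hr]
        simp only
        omega

theorem phi_up (u : VT) (hu : u ≠ .inl tV) : ∃ w, G.Adj u w ∧ phi u < phi w := by
  rcases u with p | ⟨e, k⟩
  · rcases rk_up p with h | ⟨b, hb, hr⟩ | ⟨d, hd, hr⟩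
    · exact absurd (by rw [h]) hu
    · refine ⟨.inl (p.1, b), ⟨rfl, hb⟩, ?_⟩
      rw [phi_inl, phi_inl]
      omega
    · have hp : p = (p.1, tm d) := by rw [hd]
      have h28 := ln_le (inc p.1 d).val
      have hpos := ln_pos (inc p.1 d).val
      rcases far_cases p.1 d with ⟨h1, h2⟩ | ⟨h1, h2⟩
      · rw [h2] at hr
        rw [← hp] at h1
        refine ⟨.inr ⟨inc p.1 d, ⟨0, hpos⟩⟩, Or.inl ⟨rfl, h1⟩, ?_⟩
        have h3 : rk (T0 (inc p.1 d)) = rk p := congrArg rk h1
        rw [phi_pos _ _ (by omega), phi_inl]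
        simp only
        omega
      · rw [h2] at hr
        rw [← hp] at h1
        refine ⟨.inr ⟨inc p.1 d, ⟨ln (inc p.1 d).val - 1, by omega⟩⟩,
          Or.inr ⟨by simp only; omega, h1⟩, ?_⟩
        have h3 : rk (T1 (inc p.1 d)) = rk p := congrArg rk h1
        rw [phi_neg _ _ (by omega), phi_inl]
        simp only
        omega
  · have h28 := ln_le e.val
    have hk := k.isLt
    have hne := rk_ne e
    by_cases hr : rk (T0 e) < rk (T1 e)
    · by_cases h0 : k.val + 1 = ln e.val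
      · refine ⟨.inl (T1 e), Or.inr ⟨h0, rfl⟩, ?_⟩
        rw [phi_pos e k hr, phi_inl]
        omega
      · refine ⟨.inr ⟨e, ⟨k.val + 1, by omega⟩⟩, ⟨rfl, Or.inl rfl⟩, ?_⟩
        rw [phi_pos e _ hr, phi_pos e _ hr]
        simp only
        omega
    · by_cases h0 : k.val = 0
      · refine ⟨.inl (T0 e), Or.inl ⟨h0, rfl⟩, ?_⟩
        rw [phi_neg e k hr, phi_inl]
        omega
      · refine ⟨.inr ⟨e, ⟨k.val - 1, by omega⟩⟩, ⟨rfl, Or.inr (by simp only; omega)⟩, ?_⟩
        rw [phi_neg e _ hr, phi_neg e _ hr]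
        simp only
        omega

theorem phi_le (u : VT) : phi u ≤ 64 * 324 := by
  rcases u with p | ⟨e, k⟩
  · have := rk_le p
    rw [phi_inl]
    omega
  · have h28 := ln_le e.val
    have hk := k.isLt
    have h1 := rk_le (T0 e)
    have h2 := rk_le (T1 e)
    by_cases hr : rk (T0 e) < rk (T1 e)
    · rw [phi_pos e k hr]; omega
    · rw [phi_neg e k hr]; omega

/-- the graph is 2-connected -/
theorem G_conn (v : VT) : (G.induce ({v}ᶜ : Set VT)).Connected := by
  refine conn_of_rank G phi (.inl sV) (.inl tV) ?_ phi_inj phi_down phi_up _ phi_le v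
  exact ⟨rfl, by decide +kernel⟩

theorem VT_card : 3 ≤ Fintype.card VT := by
  rw [Fintype.card_sum, Fintype.card_prod, Fintype.card_fin, Fintype.card_fin]
  omega

end Pool.Agent.MP_efe8d0_co
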