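import Pool.Agent.Lib.MP_efe8d0_co.BdMain

set_option autoImplicit false

namespace Pool.Agent.MP_efe8d0_co

/-- number of inner vertices of a link -/
def ln (e : ℕ) : ℕ := if e < 12 then 28 else if e < 24 then 13 else 1

theorem ln_pos (e : ℕ) : 0 < ln e := by unfold ln; split_ifs <;> omega

/-- the vertex type of the graph -/
abbrev VT : Type := (Fin 36 × Fin 9) ⊕ (Σ e : Fin 54, Fin (ln e.val))

/-- edge of the base graph at node `i` in direction `d` -/
def inc (i : Fin 36) (d : Fin 3) : Fin 54 :=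
  Fin.ofNat 54 (Nat.land (Nat.shiftRight nodeTab (6 * (3 * i.val + d.val))) 63)

def e0T : ℕ := 0x75716d6965615d5955514d4945413d3935312d2925211d1916120e0a06022e2a26221e1a46423e3a36328c8884807c7814100c080400
def e1T : ℕ := 0x8e8a86827e7a74706c6864605c5854504c4844403c3834302c2824201c186a666276726e524e4a5e5a56798d8985817d0115110d0905
def fT : ℕ := 0x8ca1284a82a88c812048

def dec (t e : ℕ) : Fin 36 × Fin 3 :=
  (Fin.ofNat 36 (Nat.land (Nat.shiftRight t (8 * e)) 255 / 4),
   Fin.ofNat 3 (Nat.land (Nat.shiftRight t (8 * e)) 255 % 4))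

/-- first end of an edge (node, direction) -/
def e0 (e : Fin 54) : Fin 36 × Fin 3 := dec e0T e.val
/-- second end of an edge (node, direction) -/
def e1 (e : Fin 54) : Fin 36 × Fin 3 := dec e1T e.val

/-- terminal vertex of a fragment -/
def tm (d : Fin 3) : Fin 9 := Fin.castLE (by decide) d

/-- adjacency inside a fragment -/
def fadj (a b : Fin 9) : Bool := tb fT (9 * a.val + b.val)

def T0 (e : Fin 54) : Fin 36 × Fin 9 := ((e0 e).1, tm (e0 e).2)
def T1 (e : Fin 54) : Fin 36 × Fin 9 := ((e1 e).1, tm (e1 e).2)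

/-- adjacency of the graph -/
def Ad : VT → VT → Prop
  | .inl p, .inl q => p.1 = q.1 ∧ fadj p.2 q.2 = true
  | .inl p, .inr y => (y.2.val = 0 ∧ T0 y.1 = p) ∨ (y.2.val + 1 = ln y.1.val ∧ T1 y.1 = p)
  | .inr y, .inl p => (y.2.val = 0 ∧ T0 y.1 = p) ∨ (y.2.val + 1 = ln y.1.val ∧ T1 y.1 = p)
  | .inr x, .inr y => x.1 = y.1 ∧ (x.2.val + 1 = y.2.val ∨ y.2.val + 1 = x.2.val)

theorem fadj_symm : ∀ a b : Fin 9, fadj a b = true → fadj b a = true := by decide +kernel
theorem fadj_irrefl : ∀ a : Fin 9, fadj a a = false := by decide +kernel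

theorem Ad_symm (u v : VT) (h : Ad u v) : Ad v u := by
  rcases u with p | x <;> rcases v with q | y
  · exact ⟨h.1.symm, fadj_symm _ _ h.2⟩
  · exact h
  · exact h
  · exact ⟨h.1.symm, h.2.symm⟩

/-- the graph -/
def G : SimpleGraph VT where
  Adj := Ad
  symm := ⟨fun u v h => Ad_symm u v h⟩
  loopless := ⟨by
    intro u h
    rcases u with p | x
    · have := h.2
      rw [fadj_irrefl] at this
      exact absurd this (by simp)
    · have := h.2
      omega⟩

theorem inc_e0 : ∀ e : Fin 54, inc (e0 e).1 (e0 e).2 = e := by decide +kernel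
theorem inc_e1 : ∀ e : Fin 54, inc (e1 e).1 (e1 e).2 = e := by decide +kernel
theorem e0_ne_e1 : ∀ e : Fin 54, e0 e ≠ e1 e := by decide +kernel
theorem e0_ne_e1' : ∀ e : Fin 54, (e0 e).1 ≠ (e1 e).1 := by decide +kernel
theorem end_inc : ∀ i : Fin 36, ∀ d : Fin 3, e0 (inc i d) = (i, d) ∨ e1 (inc i d) = (i, d) := by
  decide +kernel
theorem inc_inj : ∀ i : Fin 36, ∀ d d' : Fin 3, inc i d = inc i d' → d = d' := by decide +kernel

/-- index set of (node, direction) pairs over an edge has two elements -/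
theorem inc_fiber : ∀ e : Fin 54,
    (Finset.univ.filter fun p : Fin 36 × Fin 3 => inc p.1 p.2 = e).card = 2 := by decide +kernel

theorem nodes_inc : ∀ t ∈ nodes, ∃ i : Fin 36,
    t = ((inc i 0).val, (inc i 1).val, (inc i 2).val) := by decide +kernel
theorem inc_nodes : ∀ i : Fin 36,
    ((inc i 0).val, (inc i 1).val, (inc i 2).val) ∈ nodes := by decide +kernel

end Pool.Agent.MP_efe8d0_co
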