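import Pool.Agent.Lib.MP_efe8d0_co.LowData
import Pool.Agent.Lib.MP_efe8d0_co.Graph

set_option autoImplicit false

namespace Pool.Agent.MP_efe8d0_co

/-- the other end of the edge leaving a node in a direction -/
def oth (x : Fin 36 × Fin 3) : Fin 36 × Fin 3 :=
  if e0 (inc x.1 x.2) = x then e1 (inc x.1 x.2) else e0 (inc x.1 x.2)

/-- base four digits as directions -/
def digs : ℕ → ℕ → List (Fin 3)
  | 0, _ => []
  | m + 1, c => Fin.ofNat 3 (c % 4) :: digs m (c / 4)

/-- the steps (node, entry, exit) of a closed sequence -/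
def stp : (Fin 36 × Fin 3) → List (Fin 3) → List (Fin 36 × Fin 3 × Fin 3)
  | _, [] => []
  | x, q :: l => (x.1, x.2, q) :: stp (oth (x.1, q)) l

/-- where a sequence ends -/
def fin : (Fin 36 × Fin 3) → List (Fin 3) → (Fin 36 × Fin 3)
  | x, [] => x
  | x, q :: l => fin (oth (x.1, q)) l

/-- the start of a cycle -/
def cst (c : ℕ × ℕ × ℕ) : Fin 36 × Fin 3 := (Fin.ofNat 36 (c.1 / 4), Fin.ofNat 3 (c.1 % 4))

/-- the exit directions of a cycle -/
def cdg (c : ℕ × ℕ × ℕ) : List (Fin 3) := digs c.2.1 c.2.2

/-- set of cycles not using an edge -/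
def Av (e : Fin 54) : ℕ := Nat.land (Nat.shiftRight avT (165 * e.val)) (2 ^ 165 - 1)

/-- check of a cycle -/
def chk (k : ℕ) (c : ℕ × ℕ × ℕ) : Bool :=
  decide (fin (cst c) (cdg c) = cst c) &&
  decide (((stp (cst c) (cdg c)).map (fun s => s.1)).Nodup) &&
  decide (((stp (cst c) (cdg c)).map (fun s => inc s.1 s.2.2)).Nodup) &&
  decide (((stp (cst c) (cdg c)).map (fun s => 8 + ln (inc s.1 s.2.2).val)).sum = 618) &&
  (stp (cst c) (cdg c)).all (fun s => decide (s.2.1 ≠ s.2.2) &&
    !(Nat.testBit (Av (inc s.1 s.2.1)) k) && !(Nat.testBit (Av (inc s.1 s.2.2)) k))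

def allC : ℕ → List (ℕ × ℕ × ℕ) → Bool
  | _, [] => true
  | k, c :: l => chk k c && allC (k + 1) l

theorem cy0_cert : allC 0 cy0 = true := by decide +kernel
theorem cy1_cert : allC 15 cy1 = true := by decide +kernel
theorem cy2_cert : allC 30 cy2 = true := by decide +kernel
theorem cy3_cert : allC 45 cy3 = true := by decide +kernel
theorem cy4_cert : allC 60 cy4 = true := by decide +kernel
theorem cy5_cert : allC 75 cy5 = true := by decide +kernel
theorem cy6_cert : allC 90 cy6 = true := by decide +kernel
theorem cy7_cert : allC 105 cy7 = true := by decide +kernel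
theorem cy8_cert : allC 120 cy8 = true := by decide +kernel
theorem cy9_cert : allC 135 cy9 = true := by decide +kernel
theorem cy10_cert : allC 150 cy10 = true := by decide +kernel

theorem allC_append (l l' : List (ℕ × ℕ × ℕ)) : ∀ k, allC k l = true →
    allC (k + l.length) l' = true → allC k (l ++ l') = true := by
  induction l with
  | nil => intro k _ h; exact h
  | cons c l ih =>
    intro k h h'
    have h1 : (chk k c && allC (k + 1) l) = true := h
    rw [Bool.and_eq_true] at h1
    show (chk k c && allC (k + 1) (l ++ l')) = true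
    rw [Bool.and_eq_true]
    refine ⟨h1.1, ih (k + 1) h1.2 ?_⟩
    have e : k + (c :: l).length = k + 1 + l.length := by
      rw [List.length_cons]; omega
    rw [e] at h'
    exact h'

theorem allC_cert : allC 0 cycL = true := by
  unfold cycL
  refine allC_append _ _ _ cy0_cert ?_
  refine allC_append _ _ _ cy1_cert ?_
  refine allC_append _ _ _ cy2_cert ?_
  refine allC_append _ _ _ cy3_cert ?_
  refine allC_append _ _ _ cy4_cert ?_
  refine allC_append _ _ _ cy5_cert ?_
  refine allC_append _ _ _ cy6_cert ?_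
  refine allC_append _ _ _ cy7_cert ?_
  refine allC_append _ _ _ cy8_cert ?_
  exact allC_append _ _ _ cy9_cert cy10_cert

end Pool.Agent.MP_efe8d0_co
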