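import Pool.Agent.Lib.MP_efe8d0_co.Low1

set_option autoImplicit false

namespace Pool.Agent.MP_efe8d0_co

theorem allC_sound (l : List (ℕ × ℕ × ℕ)) : ∀ (k : ℕ), allC k l = true →
    ∀ (j : ℕ) (h : j < l.length), chk (k + j) (l[j]) = true := by
  induction l with
  | nil => intro k _ j h; exact absurd h (Nat.not_lt_zero _)
  | cons c l ih =>
    intro k hk j h
    unfold allC at hk
    rw [Bool.and_eq_true] at hk
    cases j with
    | zero => exact hk.1
    | succ j =>
      have h' : j < l.length := by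
        have : j + 1 < l.length + 1 := h
        omega
      have := ih (k + 1) hk.2 j h'
      have e : k + (j + 1) = k + 1 + j := by omega
      rw [e]
      exact this

/-- a valid long cycle of the base graph -/
structure CV (x : Fin 36 × Fin 3) (q : List (Fin 3)) : Prop where
  fin : fin x q = x
  nd : ((stp x q).map (fun s => s.1)).Nodup
  nde : ((stp x q).map (fun s => inc s.1 s.2.2)).Nodup
  sum : ((stp x q).map (fun s => 8 + ln (inc s.1 s.2.2).val)).sum = 618
  ne : ∀ s ∈ stp x q, s.2.1 ≠ s.2.2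

theorem chk_sound (k : ℕ) (c : ℕ × ℕ × ℕ) (h : chk k c = true) :
    CV (cst c) (cdg c) ∧ ∀ s ∈ stp (cst c) (cdg c),
      Nat.testBit (Av (inc s.1 s.2.1)) k = false ∧ Nat.testBit (Av (inc s.1 s.2.2)) k = false := by
  unfold chk at h
  simp only [Bool.and_eq_true, decide_eq_true_eq, List.all_eq_true, Bool.not_eq_true'] at h
  obtain ⟨⟨⟨⟨h1, h2⟩, h3⟩, h4⟩, h5⟩ := h
  refine ⟨⟨h1, h2, h3, h4, ?_⟩, ?_⟩
  · intro s hs; exact (h5 s hs).1.1
  · intro s hs; exact ⟨(h5 s hs).1.2, (h5 s hs).2⟩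

def Avn (e : ℕ) : ℕ := Nat.land (Nat.shiftRight avT (165 * e)) (2 ^ 165 - 1)

def loop (n : ℕ) (f : ℕ → Bool) : Bool := Nat.rec true (fun k ih => f k && ih) n

theorem loop_spec (n : ℕ) (f : ℕ → Bool) (h : loop n f = true) : ∀ k, k < n → f k = true := by
  induction n with
  | zero => intro k hk; exact absurd hk (Nat.not_lt_zero _)
  | succ n ih =>
    intro k hk
    have h' : (f n && loop n f) = true := h
    rw [Bool.and_eq_true] at h'
    rcases Nat.lt_succ_iff_lt_or_eq.1 hk with hk | hk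
    · exact ih h'.2 k hk
    · rw [hk]; exact h'.1

theorem e3_cert : loop 54 (fun a => loop 54 (fun b => loop 54 (fun c =>
    !(Nat.beq (Nat.land (Nat.land (Avn a) (Avn b)) (Avn c)) 0)))) = true := by decide +kernel

theorem cycL_length : cycL.length = 165 := by decide +kernel

theorem av_lt (e : Fin 54) (k : ℕ) (h : Nat.testBit (Av e) k = true) : k < 165 := by
  by_contra hk
  have h1 : Nat.testBit (Av e) k = (Nat.testBit (Nat.shiftRight avT (165 * e.val)) k &&
      Nat.testBit (2 ^ 165 - 1) k) := Nat.testBit_land _ _ _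
  rw [h1, Nat.testBit_two_pow_sub_one] at h
  rw [Bool.and_eq_true] at h
  have := h.2
  simp only [decide_eq_true_eq] at this
  omega

/-- every three edges of the base graph are avoided by one of the long cycles -/
theorem E3 (a b c : Fin 54) : ∃ x q, CV x q ∧ ∀ s ∈ stp x q,
    (inc s.1 s.2.1 ≠ a ∧ inc s.1 s.2.1 ≠ b ∧ inc s.1 s.2.1 ≠ c) ∧
    (inc s.1 s.2.2 ≠ a ∧ inc s.1 s.2.2 ≠ b ∧ inc s.1 s.2.2 ≠ c) := by
  have h := loop_spec _ _ (loop_spec _ _ (loop_spec _ _ e3_cert a.val a.isLt) b.val b.isLt)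
    c.val c.isLt
  have hne : Nat.land (Nat.land (Av a) (Av b)) (Av c) ≠ 0 := by
    intro h0
    have h0' : Nat.land (Nat.land (Avn a.val) (Avn b.val)) (Avn c.val) = 0 := h0
    simp only [h0'] at h
    exact absurd h (by decide)
  obtain ⟨k, hk⟩ := Nat.exists_testBit_of_ne_zero hne
  have h1 : Nat.testBit (Nat.land (Nat.land (Av a) (Av b)) (Av c)) k =
      (Nat.testBit (Nat.land (Av a) (Av b)) k && Nat.testBit (Av c) k) := Nat.testBit_land _ _ _
  have h2 : Nat.testBit (Nat.land (Av a) (Av b)) k =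
      (Nat.testBit (Av a) k && Nat.testBit (Av b) k) := Nat.testBit_land _ _ _
  rw [h1, h2, Bool.and_eq_true, Bool.and_eq_true] at hk
  obtain ⟨⟨ha, hb⟩, hc⟩ := hk
  have hk165 := av_lt a k ha
  have hk' : k < cycL.length := by rw [cycL_length]; exact hk165
  have hch := allC_sound cycL 0 allC_cert k hk'
  rw [Nat.zero_add] at hch
  obtain ⟨hv, hs⟩ := chk_sound k _ hch
  refine ⟨_, _, hv, ?_⟩
  intro s hsm
  obtain ⟨h3, h4⟩ := hs s hsm
  refine ⟨⟨?_, ?_, ?_⟩, ⟨?_, ?_, ?_⟩⟩
  · intro e; rw [e, ha] at h3; exact absurd h3 (by decide)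
  · intro e; rw [e, hb] at h3; exact absurd h3 (by decide)
  · intro e; rw [e, hc] at h3; exact absurd h3 (by decide)
  · intro e; rw [e, ha] at h4; exact absurd h4 (by decide)
  · intro e; rw [e, hb] at h4; exact absurd h4 (by decide)
  · intro e; rw [e, hc] at h4; exact absurd h4 (by decide)

/-- the direction spoiled by a fragment vertex -/
def dd (a : Fin 9) : Fin 3 := if a.val < 3 then Fin.ofNat 3 a.val else Fin.ofNat 3 (a.val + 1)

/-- a path through all but one vertex of the fragment -/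
structure PathOK (p q : Fin 3) (L : List (Fin 9)) : Prop where
  hd : L.head? = some (tm p)
  lst : L.getLast? = some (tm q)
  ch : L.IsChain (fun a b => fadj a b = true)
  nd : L.Nodup
  len : L.length = 8

def pOK (p q : Fin 3) (L : List (Fin 9)) : Bool :=
  decide (L.head? = some (tm p)) && decide (L.getLast? = some (tm q)) &&
  decide (L.IsChain (fun a b => fadj a b = true)) && decide (L.Nodup) && decide (L.length = 8)

theorem pOK_sound (p q : Fin 3) (L : List (Fin 9)) (h : pOK p q L = true) : PathOK p q L := by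
  unfold pOK at h
  simp only [Bool.and_eq_true, decide_eq_true_eq] at h
  exact ⟨h.1.1.1.1, h.1.1.1.2, h.1.1.2, h.1.2, h.2⟩

theorem path_cert : ∀ (p q : Fin 3) (a : Fin 9), p ≠ q → dd a ≠ p → dd a ≠ q →
    paths18.any (fun L => pOK p q L && !(L.contains a)) = true := by decide +kernel

theorem path_avoid (p q : Fin 3) (a : Fin 9) (h1 : p ≠ q) (h2 : dd a ≠ p) (h3 : dd a ≠ q) :
    ∃ L, PathOK p q L ∧ a ∉ L := by
  have h := path_cert p q a h1 h2 h3
  rw [List.any_eq_true] at h
  obtain ⟨L, _, hL⟩ := h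
  rw [Bool.and_eq_true] at hL
  refine ⟨L, pOK_sound _ _ _ hL.1, ?_⟩
  intro ha
  have := hL.2
  simp only [Bool.not_eq_true'] at this
  rw [List.contains_iff_mem.2 ha] at this
  exact absurd this (by decide)

theorem path_any (p q : Fin 3) (h1 : p ≠ q) : ∃ L, PathOK p q L := by
  have : ∀ (p q : Fin 3), p ≠ q → ∃ a : Fin 9, dd a ≠ p ∧ dd a ≠ q := by decide +kernel
  obtain ⟨a, h2, h3⟩ := this p q h1
  obtain ⟨L, hL, _⟩ := path_avoid p q a h1 h2 h3
  exact ⟨L, hL⟩

end Pool.Agent.MP_efe8d0_co
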