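import Pool.Agent.Lib.MP_efe8d0_co.Low2

set_option autoImplicit false

namespace Pool.Agent.MP_efe8d0_co

/-- the first `k` vertices of a link in decreasing order -/
def dl (e : Fin 54) : (k : ℕ) → k ≤ ln e.val → List VT
  | 0, _ => []
  | k + 1, h => .inr ⟨e, ⟨k, h⟩⟩ :: dl e k (Nat.le_of_succ_le h)

theorem mem_dl (e : Fin 54) : ∀ (k : ℕ) (h : k ≤ ln e.val) (v : VT), v ∈ dl e k h →
    ∃ j : Fin (ln e.val), j.val < k ∧ v = .inr ⟨e, j⟩
  | 0, _, v, hv => by
    have : v ∈ ([] : List VT) := hv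
    exact absurd this List.not_mem_nil
  | k + 1, h, v, hv => by
    have hv' : v ∈ (Sum.inr ⟨e, ⟨k, h⟩⟩ :: dl e k (Nat.le_of_succ_le h) : List VT) := hv
    rcases List.mem_cons.1 hv' with h1 | h1
    · exact ⟨⟨k, h⟩, Nat.lt_succ_self k, h1⟩
    · obtain ⟨j, hj, hvj⟩ := mem_dl e k _ v h1
      exact ⟨j, Nat.lt_succ_of_lt hj, hvj⟩

theorem dl_nodup (e : Fin 54) : ∀ (k : ℕ) (h : k ≤ ln e.val), (dl e k h).Nodup
  | 0, _ => List.nodup_nil
  | k + 1, h => by
    show (Sum.inr ⟨e, ⟨k, h⟩⟩ :: dl e k (Nat.le_of_succ_le h) : List VT).Nodup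
    rw [List.nodup_cons]
    refine ⟨?_, dl_nodup e k _⟩
    intro hm
    obtain ⟨j, hj, hvj⟩ := mem_dl e k _ _ hm
    have h1 := Sum.inr.inj hvj
    have h2 := eq_of_heq (Sigma.mk.inj h1).2
    have h3 : k = j.val := congrArg Fin.val h2
    omega

theorem dl_len (e : Fin 54) : ∀ (k : ℕ) (h : k ≤ ln e.val), (dl e k h).length = k
  | 0, _ => rfl
  | k + 1, h => by
    show (Sum.inr ⟨e, ⟨k, h⟩⟩ :: dl e k (Nat.le_of_succ_le h) : List VT).length = k + 1
    rw [List.length_cons, dl_len e k _]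

theorem dl_chain (e : Fin 54) : ∀ (k : ℕ) (h : k ≤ ln e.val),
    (dl e k h ++ [(.inl (T0 e) : VT)]).IsChain Ad
  | 0, _ => List.isChain_singleton _
  | 1, h => by
    show List.IsChain Ad [.inr ⟨e, ⟨0, h⟩⟩, .inl (T0 e)]
    exact List.isChain_cons_cons.2 ⟨Or.inl ⟨rfl, rfl⟩, List.isChain_singleton _⟩
  | k + 2, h => by
    have ih := dl_chain e (k + 1) (Nat.le_of_succ_le h)
    show List.IsChain Ad (.inr ⟨e, ⟨k + 1, h⟩⟩ :: .inr ⟨e, ⟨k, Nat.le_of_succ_le h⟩⟩ ::
      (dl e k _ ++ [.inl (T0 e)]))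
    exact List.isChain_cons_cons.2 ⟨⟨rfl, Or.inr rfl⟩, ih⟩

theorem dl_chain' (e : Fin 54) : ∀ (n : ℕ) (h : n ≤ ln e.val), n = ln e.val →
    (.inl (T1 e) :: (dl e n h ++ [(.inl (T0 e) : VT)])).IsChain Ad
  | 0, _, h' => by
    have := ln_pos e.val
    omega
  | k + 1, h, h' => by
    have ih := dl_chain e (k + 1) h
    show List.IsChain Ad (.inl (T1 e) :: .inr ⟨e, ⟨k, h⟩⟩ :: (dl e k _ ++ [.inl (T0 e)]))
    exact List.isChain_cons_cons.2 ⟨Or.inr ⟨h', rfl⟩, ih⟩

/-- the vertices of the link leaving a node, in the order away from the node -/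
def linkL (x : Fin 36 × Fin 3) : List VT :=
  if e0 (inc x.1 x.2) = x then (dl (inc x.1 x.2) _ le_rfl).reverse else dl (inc x.1 x.2) _ le_rfl

theorem linkL_mem (x : Fin 36 × Fin 3) (v : VT) (hv : v ∈ linkL x) :
    ∃ j, v = .inr ⟨inc x.1 x.2, j⟩ := by
  unfold linkL at hv
  split_ifs at hv with h
  · obtain ⟨j, _, hj⟩ := mem_dl _ _ _ _ (List.mem_reverse.1 hv)
    exact ⟨j, hj⟩
  · obtain ⟨j, _, hj⟩ := mem_dl _ _ _ _ hv
    exact ⟨j, hj⟩

theorem linkL_nodup (x : Fin 36 × Fin 3) : (linkL x).Nodup := by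
  unfold linkL
  split_ifs
  · exact List.nodup_reverse.2 (dl_nodup _ _ _)
  · exact dl_nodup _ _ _

theorem linkL_len (x : Fin 36 × Fin 3) : (linkL x).length = ln (inc x.1 x.2).val := by
  unfold linkL
  split_ifs
  · rw [List.length_reverse, dl_len]
  · rw [dl_len]

theorem linkL_chain (x : Fin 36 × Fin 3) :
    (.inl (x.1, tm x.2) :: (linkL x ++ [.inl ((oth x).1, tm (oth x).2)])).IsChain Ad := by
  have hD := dl_chain' (inc x.1 x.2) _ le_rfl rfl
  unfold linkL oth
  by_cases h : e0 (inc x.1 x.2) = x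
  · rw [if_pos h, if_pos h]
    have hT0 : T0 (inc x.1 x.2) = (x.1, tm x.2) := by unfold T0; rw [h]
    have hT1 : ((e1 (inc x.1 x.2)).1, tm (e1 (inc x.1 x.2)).2) = T1 (inc x.1 x.2) := rfl
    rw [hT1, ← hT0]
    have hr : (.inl (T0 (inc x.1 x.2)) :: ((dl (inc x.1 x.2) _ le_rfl).reverse ++
        [.inl (T1 (inc x.1 x.2))]) : List VT) =
        (.inl (T1 (inc x.1 x.2)) :: (dl (inc x.1 x.2) _ le_rfl ++
        [.inl (T0 (inc x.1 x.2))]) : List VT).reverse := by
      simp
    rw [hr, List.isChain_reverse]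
    exact hD.imp (fun a b hab => Ad_symm _ _ hab)
  · rw [if_neg h, if_neg h]
    have h1 : e1 (inc x.1 x.2) = x := by
      rcases end_inc x.1 x.2 with h' | h'
      · exact absurd h' h
      · exact h'
    have hT1 : T1 (inc x.1 x.2) = (x.1, tm x.2) := by unfold T1; rw [h1]
    have hT0 : ((e0 (inc x.1 x.2)).1, tm (e0 (inc x.1 x.2)).2) = T0 (inc x.1 x.2) := rfl
    rw [hT0, ← hT1]
    exact hD

/-- the part of the long cycle for one step -/
def blk (sel : Fin 36 × Fin 3 × Fin 3 → List (Fin 9)) (s : Fin 36 × Fin 3 × Fin 3) : List VT :=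
  (sel s).map (fun a => .inl (s.1, a)) ++ linkL (s.1, s.2.2)

theorem mem_blk (sel : Fin 36 × Fin 3 × Fin 3 → List (Fin 9)) (s : Fin 36 × Fin 3 × Fin 3) (v : VT)
    (hv : v ∈ blk sel s) : (∃ a ∈ sel s, v = .inl (s.1, a)) ∨ (∃ k, v = .inr ⟨inc s.1 s.2.2, k⟩) := by
  unfold blk at hv
  rcases List.mem_append.1 hv with h | h
  · obtain ⟨a, ha, hav⟩ := List.mem_map.1 h
    exact Or.inl ⟨a, ha, hav.symm⟩
  · exact Or.inr (linkL_mem _ _ h)

theorem big_chain (sel : Fin 36 × Fin 3 × Fin 3 → List (Fin 9)) (q : List (Fin 3)) :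
    ∀ (x : Fin 36 × Fin 3), (∀ s ∈ stp x q, PathOK s.2.1 s.2.2 (sel s)) →
    ((stp x q).flatMap (blk sel) ++ [(.inl ((fin x q).1, tm (fin x q).2) : VT)]).IsChain Ad ∧
    ((stp x q).flatMap (blk sel) ++ [(.inl ((fin x q).1, tm (fin x q).2) : VT)]).head? =
      some (.inl (x.1, tm x.2)) := by
  induction q with
  | nil =>
    intro x _
    exact ⟨List.isChain_singleton _, rfl⟩
  | cons q l ih =>
    intro x hs
    have hs1 : PathOK x.2 q (sel (x.1, x.2, q)) := hs (x.1, x.2, q) (List.mem_cons_self)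
    obtain ⟨ih1, ih2⟩ := ih (oth (x.1, q)) (fun s h => hs s (List.mem_cons_of_mem _ h))
    have e1 : (stp x (q :: l)).flatMap (blk sel) ++
        [.inl ((fin x (q :: l)).1, tm (fin x (q :: l)).2)] =
        ((sel (x.1, x.2, q)).map (fun a => .inl (x.1, a)) ++ linkL (x.1, q)) ++
        ((stp (oth (x.1, q)) l).flatMap (blk sel) ++
        [.inl ((fin (oth (x.1, q)) l).1, tm (fin (oth (x.1, q)) l).2)]) := by
      show ((x.1, x.2, q) :: stp (oth (x.1, q)) l).flatMap (blk sel) ++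
        [.inl ((fin (oth (x.1, q)) l).1, tm (fin (oth (x.1, q)) l).2)] = _
      rw [List.flatMap_cons, List.append_assoc]
      rfl
    rw [e1]
    obtain ⟨P0, hP0⟩ := List.getLast?_eq_some_iff.1 hs1.lst
    obtain ⟨R, hR⟩ := List.head?_eq_some_iff.1 ih2
    rw [hR] at ih1 ⊢
    have c1 : ((sel (x.1, x.2, q)).map (fun a => (.inl (x.1, a) : VT))).IsChain Ad := by
      rw [List.isChain_map]
      exact hs1.ch.imp (fun a b hab => ⟨rfl, hab⟩)
    rw [hP0, List.map_append] at c1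
    have hm : List.map (fun a => (.inl (x.1, a) : VT)) [tm q] = [.inl (x.1, tm q)] := rfl
    rw [hm] at c1
    have c2 := linkL_chain (x.1, q)
    have c2' : ([(.inl (x.1, tm q) : VT)] ++ (linkL (x.1, q) ++
      [(.inl ((oth (x.1, q)).1, tm (oth (x.1, q)).2) : VT)])).IsChain Ad := c2
    have c12 := c1.append_overlap c2' (List.cons_ne_nil _ _)
    rw [← List.append_assoc] at c12
    have c3' : ([(.inl ((oth (x.1, q)).1, tm (oth (x.1, q)).2) : VT)] ++ R).IsChain Ad := ih1
    have c123 := c12.append_overlap c3' (List.cons_ne_nil _ _)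
    constructor
    · rw [hP0, List.map_append, hm]
      rw [List.append_assoc] at c123
      exact c123
    · obtain ⟨Q, hQ⟩ := List.head?_eq_some_iff.1 hs1.hd
      rw [hQ]
      rfl

theorem big_nodup (sel : Fin 36 × Fin 3 × Fin 3 → List (Fin 9)) (x : Fin 36 × Fin 3)
    (q : List (Fin 3)) (hv : CV x q) (hs : ∀ s ∈ stp x q, PathOK s.2.1 s.2.2 (sel s)) :
    ((stp x q).flatMap (blk sel)).Nodup := by
  rw [List.nodup_flatMap]
  constructor
  · intro s hsm
    unfold blk
    rw [List.nodup_append']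
    refine ⟨?_, linkL_nodup _, ?_⟩
    · refine (hs s hsm).nd.map ?_
      intro a b hab
      have := Sum.inl.inj hab
      exact congrArg Prod.snd this
    · intro v h1 h2
      obtain ⟨a, _, ha⟩ := List.mem_map.1 h1
      obtain ⟨j, hj⟩ := linkL_mem _ _ h2
      rw [hj] at ha
      cases ha
  · have h1 := List.pairwise_map.1 hv.nd
    have h2 := List.pairwise_map.1 hv.nde
    refine (h1.and h2).imp ?_
    intro s s' hss v hv1 hv2
    rcases mem_blk _ _ _ hv1 with ⟨a, _, ha⟩ | ⟨k, hk⟩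
    · rcases mem_blk _ _ _ hv2 with ⟨b, _, hb⟩ | ⟨l, hl⟩
      · rw [ha] at hb
        have h5 : (s.1, a) = (s'.1, b) := Sum.inl.inj hb
        exact hss.1 (Prod.mk.inj h5).1
      · rw [ha] at hl
        cases hl
    · rcases mem_blk _ _ _ hv2 with ⟨b, _, hb⟩ | ⟨l, hl⟩
      · rw [hk] at hb
        cases hb
      · rw [hk] at hl
        have h5 := Sum.inr.inj hl
        exact hss.2 (Sigma.mk.inj h5).1

theorem big_len (sel : Fin 36 × Fin 3 × Fin 3 → List (Fin 9)) (x : Fin 36 × Fin 3)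
    (q : List (Fin 3)) (hv : CV x q) (hs : ∀ s ∈ stp x q, PathOK s.2.1 s.2.2 (sel s)) :
    ((stp x q).flatMap (blk sel)).length = 618 := by
  rw [List.length_flatMap, ← hv.sum]
  congr 1
  refine List.map_congr_left ?_
  intro s hsm
  unfold blk
  rw [List.length_append, List.length_map, (hs s hsm).len, linkL_len]

theorem cycle_of_list {V : Type} {H : SimpleGraph V} (v : V) (l : List V)
    (hc : (v :: (l ++ [v])).IsChain H.Adj) (hn : (v :: l).Nodup) (hl : 2 ≤ l.length) :
    ∃ c : H.Walk v v, c.IsCycle ∧ c.support = v :: (l ++ [v]) := by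
  let p := SimpleGraph.Walk.ofSupport (v :: (l ++ [v])) (List.cons_ne_nil _ _) hc
  let c : H.Walk v v := p.copy rfl (by simp)
  have hcs : c.support = v :: (l ++ [v]) := by
    rw [SimpleGraph.Walk.support_copy, SimpleGraph.Walk.support_ofSupport]
  have hlen : c.length = l.length + 1 := by
    have h1 := SimpleGraph.Walk.length_support c
    rw [hcs] at h1
    simp at h1
    omega
  refine ⟨c, ?_, hcs⟩
  rw [SimpleGraph.Walk.isCycle_iff_isPath_tail_and_le_length]
  refine ⟨?_, by omega⟩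
  have hnn : ¬ c.Nil := by
    intro h
    have := SimpleGraph.Walk.length_eq_zero_iff.2 h
    omega
  refine SimpleGraph.Walk.IsPath.mk' ?_
  rw [SimpleGraph.Walk.support_tail_of_not_nil c hnn, hcs]
  show (l ++ [v]).Nodup
  rw [List.nodup_append']
  rw [List.nodup_cons] at hn
  refine ⟨hn.2, List.nodup_singleton _, ?_⟩
  intro a ha hb
  rw [List.mem_singleton] at hb
  rw [hb] at ha
  exact hn.1 ha

theorem lift (sel : Fin 36 × Fin 3 × Fin 3 → List (Fin 9)) (x : Fin 36 × Fin 3)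
    (q : List (Fin 3)) (hv : CV x q) (hs : ∀ s ∈ stp x q, PathOK s.2.1 s.2.2 (sel s)) :
    ∃ (u : VT) (c : G.Walk u u), c.IsCycle ∧ c.length = 618 ∧
      ∀ v ∈ c.support, ∃ s ∈ stp x q, v ∈ blk sel s := by
  obtain ⟨h1, h2⟩ := big_chain sel q x hs
  have h3 := big_nodup sel x q hv hs
  have h4 := big_len sel x q hv hs
  rw [hv.fin] at h1 h2
  generalize hL : (stp x q).flatMap (blk sel) = L at h1 h2 h3 h4
  cases L with
  | nil => exact absurd h4 (by decide)
  | cons v l =>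
    have hv' : v = .inl (x.1, tm x.2) := by
      have h2' : some v = some (.inl (x.1, tm x.2)) := h2
      exact Option.some.inj h2'
    rw [← hv'] at h1
    have hl : l.length = 617 := by
      rw [List.length_cons] at h4
      omega
    obtain ⟨c, hc, hcs⟩ := cycle_of_list (H := G) v l h1 h3 (by omega)
    refine ⟨v, c, hc, ?_, ?_⟩
    · have h5 := SimpleGraph.Walk.length_support c
      rw [hcs, List.length_cons, List.length_append, hl, List.length_singleton] at h5
      omega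
    · intro u hu
      rw [hcs] at hu
      have hu' : u ∈ (stp x q).flatMap (blk sel) := by
        rw [hL]
        rcases List.mem_cons.1 hu with h | h
        · rw [h]; exact List.mem_cons_self
        · rcases List.mem_append.1 h with h | h
          · exact List.mem_cons_of_mem _ h
          · rw [List.mem_singleton] at h
            rw [h]; exact List.mem_cons_self
      obtain ⟨s, hs1, hs2⟩ := List.mem_flatMap.1 hu'
      exact ⟨s, hs1, hs2⟩

end Pool.Agent.MP_efe8d0_co
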