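import Pool.Agent.Lib.MP_efe8d0_co.Low3

set_option autoImplicit false

namespace Pool.Agent.MP_efe8d0_co

/-- the edge assigned to a vertex -/
def asg : VT → Fin 54
  | .inl p => inc p.1 (dd p.2)
  | .inr y => y.1

/-- the step keeps away from a vertex when the path list `L` is used -/
def Keep (s : Fin 36 × Fin 3 × Fin 3) (L : List (Fin 9)) (v : VT) : Prop :=
  ∀ a ∈ L, (.inl (s.1, a) : VT) ≠ v

theorem lift_avoid (x : Fin 36 × Fin 3) (q : List (Fin 3)) (hv : CV x q) (v1 v2 v3 : VT)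
    (hL : ∀ s ∈ stp x q, ∃ L, PathOK s.2.1 s.2.2 L ∧ Keep s L v1 ∧ Keep s L v2 ∧ Keep s L v3)
    (he : ∀ s ∈ stp x q, ∀ k : Fin (ln (inc s.1 s.2.2).val),
      (.inr ⟨inc s.1 s.2.2, k⟩ : VT) ≠ v1 ∧ (.inr ⟨inc s.1 s.2.2, k⟩ : VT) ≠ v2 ∧
      (.inr ⟨inc s.1 s.2.2, k⟩ : VT) ≠ v3) :
    ∃ (u : VT) (c : G.Walk u u), c.IsCycle ∧ c.length = 618 ∧ v1 ∉ c.support ∧ v2 ∉ c.support ∧
      v3 ∉ c.support := by
  have hL' : ∀ s, ∃ L, s ∈ stp x q → PathOK s.2.1 s.2.2 L ∧ Keep s L v1 ∧ Keep s L v2 ∧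
      Keep s L v3 := by
    intro s
    by_cases h : s ∈ stp x q
    · obtain ⟨L, hL1⟩ := hL s h
      exact ⟨L, fun _ => hL1⟩
    · exact ⟨[], fun h' => absurd h' h⟩
  choose sel hsel using hL'
  obtain ⟨u, c, hc, hlen, hsup⟩ := lift sel x q hv (fun s hs => (hsel s hs).1)
  have key : ∀ v, (∀ s ∈ stp x q, Keep s (sel s) v) →
      (∀ s ∈ stp x q, ∀ k : Fin (ln (inc s.1 s.2.2).val), (.inr ⟨inc s.1 s.2.2, k⟩ : VT) ≠ v) →
      v ∉ c.support := by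
    intro v h1 h2 hm
    obtain ⟨s, hs, hb⟩ := hsup v hm
    rcases mem_blk _ _ _ hb with ⟨a, ha, hav⟩ | ⟨k, hk⟩
    · exact h1 s hs a ha hav.symm
    · exact h2 s hs k hk.symm
  refine ⟨u, c, hc, hlen, ?_, ?_, ?_⟩
  · exact key v1 (fun s hs => (hsel s hs).2.1) (fun s hs k => (he s hs k).1)
  · exact key v2 (fun s hs => (hsel s hs).2.2.1) (fun s hs k => (he s hs k).2.1)
  · exact key v3 (fun s hs => (hsel s hs).2.2.2) (fun s hs k => (he s hs k).2.2)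

theorem asg_link (s : Fin 36 × Fin 3 × Fin 3) (v : VT) (h : inc s.1 s.2.2 ≠ asg v)
    (k : Fin (ln (inc s.1 s.2.2).val)) : (.inr ⟨inc s.1 s.2.2, k⟩ : VT) ≠ v := by
  intro e
  rw [← e] at h
  exact h rfl

/-- vertices in the same fragment -/
def Same (v w : VT) : Prop := ∃ i a b, v = .inl (i, a) ∧ w = .inl (i, b)

/-- a step at a node with at most one forbidden vertex can be made -/
theorem step_one (s : Fin 36 × Fin 3 × Fin 3) (v : VT) (hne : s.2.1 ≠ s.2.2)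
    (h1 : inc s.1 s.2.1 ≠ asg v) (h2 : inc s.1 s.2.2 ≠ asg v) :
    ∃ L, PathOK s.2.1 s.2.2 L ∧ Keep s L v := by
  by_cases h : ∃ a, v = .inl (s.1, a)
  · obtain ⟨a, ha⟩ := h
    rw [ha] at h1 h2
    have h1' : dd a ≠ s.2.1 := by
      intro e
      apply h1
      show _ = inc s.1 (dd a)
      rw [e]
    have h2' : dd a ≠ s.2.2 := by
      intro e
      apply h2
      show _ = inc s.1 (dd a)
      rw [e]
    obtain ⟨L, hL, haL⟩ := path_avoid s.2.1 s.2.2 a hne h1' h2'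
    refine ⟨L, hL, ?_⟩
    intro b hb e
    rw [ha] at e
    have h5 : (s.1, b) = (s.1, a) := Sum.inl.inj e
    rw [(Prod.mk.inj h5).2] at hb
    exact haL hb
  · obtain ⟨L, hL⟩ := path_any s.2.1 s.2.2 hne
    exact ⟨L, hL, fun a _ e => h ⟨a, e.symm⟩⟩

/-- not in the fragment of the step -/
theorem keep_of_not (s : Fin 36 × Fin 3 × Fin 3) (L : List (Fin 9)) (v : VT)
    (h : ¬ ∃ a, v = .inl (s.1, a)) : Keep s L v := fun a _ e => h ⟨a, e.symm⟩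

theorem avoid_same (v1 v2 v3 : VT) (h12 : Same v1 v2) :
    ∃ (u : VT) (c : G.Walk u u), c.IsCycle ∧ c.length = 618 ∧ v1 ∉ c.support ∧ v2 ∉ c.support ∧
      v3 ∉ c.support := by
  obtain ⟨i, a, b, ha, hb⟩ := h12
  obtain ⟨x, q, hv, hs⟩ := E3 (inc i 0) (inc i 1) (asg v3)
  have hi : ∀ s ∈ stp x q, s.1 ≠ i := by
    intro s hsm e
    obtain ⟨⟨h1, h2, _⟩, ⟨h3, h4, _⟩⟩ := hs s hsm
    rw [e] at h1 h2 h3 h4
    have hne := hv.ne s hsm
    have f0 : s.2.1 ≠ 0 := fun e => h1 (by rw [e])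
    have f1 : s.2.1 ≠ 1 := fun e => h2 (by rw [e])
    have g0 : s.2.2 ≠ 0 := fun e => h3 (by rw [e])
    have g1 : s.2.2 ≠ 1 := fun e => h4 (by rw [e])
    omega
  refine lift_avoid x q hv v1 v2 v3 ?_ ?_
  · intro s hsm
    obtain ⟨⟨_, _, h1⟩, ⟨_, _, h2⟩⟩ := hs s hsm
    obtain ⟨L, hL, hk⟩ := step_one s v3 (hv.ne s hsm) h1 h2
    refine ⟨L, hL, keep_of_not s L v1 ?_, keep_of_not s L v2 ?_, hk⟩
    · rintro ⟨c, hc⟩
      rw [ha] at hc
      have h5 : (i, a) = (s.1, c) := Sum.inl.inj hc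
      exact hi s hsm (Prod.mk.inj h5).1.symm
    · rintro ⟨c, hc⟩
      rw [hb] at hc
      have h5 : (i, b) = (s.1, c) := Sum.inl.inj hc
      exact hi s hsm (Prod.mk.inj h5).1.symm
  · intro s hsm k
    obtain ⟨⟨_, _, h1⟩, ⟨_, _, h2⟩⟩ := hs s hsm
    refine ⟨?_, ?_, asg_link s v3 h2 k⟩
    · intro e; rw [ha] at e; cases e
    · intro e; rw [hb] at e; cases e

theorem avoid (v1 v2 v3 : VT) :
    ∃ (u : VT) (c : G.Walk u u), c.IsCycle ∧ c.length = 618 ∧ v1 ∉ c.support ∧ v2 ∉ c.support ∧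
      v3 ∉ c.support := by
  by_cases h12 : Same v1 v2
  · exact avoid_same v1 v2 v3 h12
  by_cases h13 : Same v1 v3
  · obtain ⟨u, c, h1, h2, h3, h4, h5⟩ := avoid_same v1 v3 v2 h13
    exact ⟨u, c, h1, h2, h3, h5, h4⟩
  by_cases h23 : Same v2 v3
  · obtain ⟨u, c, h1, h2, h3, h4, h5⟩ := avoid_same v2 v3 v1 h23
    exact ⟨u, c, h1, h2, h5, h3, h4⟩
  obtain ⟨x, q, hv, hs⟩ := E3 (asg v1) (asg v2) (asg v3)
  refine lift_avoid x q hv v1 v2 v3 ?_ ?_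
  · intro s hsm
    obtain ⟨⟨p1, p2, p3⟩, ⟨q1, q2, q3⟩⟩ := hs s hsm
    by_cases k1 : ∃ a, v1 = .inl (s.1, a)
    · obtain ⟨a, ha⟩ := k1
      obtain ⟨L, hL, hk⟩ := step_one s v1 (hv.ne s hsm) p1 q1
      refine ⟨L, hL, hk, keep_of_not s L v2 ?_, keep_of_not s L v3 ?_⟩
      · rintro ⟨b, hb⟩; exact h12 ⟨s.1, a, b, ha, hb⟩
      · rintro ⟨b, hb⟩; exact h13 ⟨s.1, a, b, ha, hb⟩
    by_cases k2 : ∃ a, v2 = .inl (s.1, a)
    · obtain ⟨a, ha⟩ := k2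
      obtain ⟨L, hL, hk⟩ := step_one s v2 (hv.ne s hsm) p2 q2
      refine ⟨L, hL, keep_of_not s L v1 k1, hk, keep_of_not s L v3 ?_⟩
      rintro ⟨b, hb⟩; exact h23 ⟨s.1, a, b, ha, hb⟩
    obtain ⟨L, hL, hk⟩ := step_one s v3 (hv.ne s hsm) p3 q3
    exact ⟨L, hL, keep_of_not s L v1 k1, keep_of_not s L v2 k2, hk⟩
  · intro s hsm k
    obtain ⟨_, ⟨q1, q2, q3⟩⟩ := hs s hsm
    exact ⟨asg_link s v1 q1 k, asg_link s v2 q2 k, asg_link s v3 q3 k⟩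

theorem three_of_card_gen {V : Type} (v0 : V) (S : Finset V) (hS : S.card ≤ 3) :
    ∃ v1 v2 v3 : V, ∀ x ∈ S, x = v1 ∨ x = v2 ∨ x = v3 := by
  classical
  have hc : S.card = 0 ∨ S.card = 1 ∨ S.card = 2 ∨ S.card = 3 := by omega
  rcases hc with h | h | h | h
  · rw [Finset.card_eq_zero] at h
    refine ⟨v0, v0, v0, ?_⟩
    intro x hx
    rw [h] at hx
    exact absurd hx (Finset.notMem_empty x)
  · obtain ⟨a, ha⟩ := Finset.card_eq_one.1 h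
    refine ⟨a, a, a, ?_⟩
    intro x hx
    rw [ha, Finset.mem_singleton] at hx
    exact Or.inl hx
  · obtain ⟨a, b, _, hab⟩ := Finset.card_eq_two.1 h
    refine ⟨a, b, b, ?_⟩
    intro x hx
    rw [hab, Finset.mem_insert, Finset.mem_singleton] at hx
    rcases hx with h | h
    · exact Or.inl h
    · exact Or.inr (Or.inl h)
  · obtain ⟨a, b, c, _, _, _, habc⟩ := Finset.card_eq_three.1 h
    refine ⟨a, b, c, ?_⟩
    intro x hx
    rw [habc, Finset.mem_insert, Finset.mem_insert, Finset.mem_singleton] at hx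
    exact hx

theorem three_of_card (S : Finset VT) (hS : S.card ≤ 3) :
    ∃ v1 v2 v3 : VT, ∀ x ∈ S, x = v1 ∨ x = v2 ∨ x = v3 :=
  three_of_card_gen (.inl (0, 0)) S hS

end Pool.Agent.MP_efe8d0_co
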