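import Pool.Agent.Lib.MP_efe8d0_co.Graph

set_option autoImplicit false

namespace Pool.Agent.MP_efe8d0_co

open Classical in
/-- indicator of a proposition -/
noncomputable def ind (p : Prop) : ℕ := if p then 1 else 0

theorem ind_true {p : Prop} (h : p) : ind p = 1 := by unfold ind; exact if_pos h
theorem ind_false {p : Prop} (h : ¬ p) : ind p = 0 := by unfold ind; exact if_neg h
theorem ind_le (p : Prop) : ind p ≤ 1 := by
  by_cases h : p
  · rw [ind_true h]
  · rw [ind_false h]; omega
theorem of_ind {p : Prop} (h : ind p = 1) : p := by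
  by_contra hn
  rw [ind_false hn] at h; omega
theorem of_ind_pos {p : Prop} (h : 0 < ind p) : p := by
  by_contra hn
  rw [ind_false hn] at h; omega
theorem not_of_ind {p : Prop} (h : ind p = 0) : ¬ p := by
  intro hp
  rw [ind_true hp] at h; omega
theorem ind_congr {p q : Prop} (h : p ↔ q) : ind p = ind q := by
  by_cases hp : p
  · rw [ind_true hp, ind_true (h.1 hp)]
  · rw [ind_false hp, ind_false (fun hq => hp (h.2 hq))]

/-- the combinatorial content of a cycle of the graph: vertex set `U`, edge relation `A` -/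
structure Cyc (U : VT → Prop) (A : VT → VT → Prop) : Prop where
  symm : ∀ u v, A u v → A v u
  adj : ∀ u v, A u v → Ad u v
  mem : ∀ u v, A u v → U u
  deg2 : ∀ u, U u → ({v | A u v}).ncard = 2
  conn : ∀ P : VT → Prop, (∃ u, U u ∧ P u) → (∃ u, U u ∧ ¬ P u) → ∃ a b, A a b ∧ P a ∧ ¬ P b

variable {U : VT → Prop} {A : VT → VT → Prop}

theorem Cyc.deg3 (C : Cyc U A) (v n1 n2 n3 : VT) (h12 : n1 ≠ n2) (h13 : n1 ≠ n3) (h23 : n2 ≠ n3)
    (hn : ∀ w, Ad v w → w = n1 ∨ w = n2 ∨ w = n3) :
    ind (A v n1) + ind (A v n2) + ind (A v n3) = 2 * ind (U v) := by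
  classical
  by_cases hU : U v
  · have h2 := C.deg2 v hU
    have hS : {w | A v w} = ((({n1, n2, n3} : Finset VT).filter (fun w => A v w) : Finset VT) : Set VT) := by
      ext w
      simp only [Set.mem_ofPred_eq, Finset.coe_filter, Finset.mem_insert, Finset.mem_singleton]
      constructor
      · intro h; exact ⟨hn w (C.adj _ _ h), h⟩
      · intro h; exact h.2
    rw [hS, Set.ncard_coe_finset, Finset.card_filter] at h2
    rw [Finset.sum_insert (by simp [h12, h13]), Finset.sum_insert (by simp [h23]),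
      Finset.sum_singleton] at h2
    rw [ind_true hU]
    unfold ind
    split_ifs at h2 ⊢ <;> omega
  · rw [ind_false hU, ind_false (fun h => hU (C.mem _ _ h)), ind_false (fun h => hU (C.mem _ _ h)),
      ind_false (fun h => hU (C.mem _ _ h))]

theorem Cyc.deg2' (C : Cyc U A) (v n1 n2 : VT) (h12 : n1 ≠ n2)
    (hn : ∀ w, Ad v w → w = n1 ∨ w = n2) (hU : U v) : A v n1 ∧ A v n2 := by
  classical
  have h2 := C.deg2 v hU
  have hS : {w | A v w} = ((({n1, n2} : Finset VT).filter (fun w => A v w) : Finset VT) : Set VT) := by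
    ext w
    simp only [Set.mem_ofPred_eq, Finset.coe_filter, Finset.mem_insert, Finset.mem_singleton]
    constructor
    · intro h; exact ⟨hn w (C.adj _ _ h), h⟩
    · intro h; exact h.2
  rw [hS, Set.ncard_coe_finset, Finset.card_filter] at h2
  rw [Finset.sum_insert (by simp [h12]), Finset.sum_singleton] at h2
  constructor
  · by_contra hc
    rw [if_neg hc] at h2
    split_ifs at h2 <;> omega
  · by_contra hc
    rw [if_neg hc] at h2
    split_ifs at h2 <;> omega

/-- previous vertex on a link -/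
def prv (e : Fin 54) (k : Fin (ln e.val)) : VT :=
  if _ : k.val = 0 then .inl (T0 e) else .inr ⟨e, ⟨k.val - 1, by omega⟩⟩

/-- next vertex on a link -/
def nxt (e : Fin 54) (k : Fin (ln e.val)) : VT :=
  if _ : k.val + 1 = ln e.val then .inl (T1 e) else .inr ⟨e, ⟨k.val + 1, by omega⟩⟩

theorem link_nbr (e : Fin 54) (k : Fin (ln e.val)) (w : VT) (h : Ad (.inr ⟨e, k⟩) w) :
    w = prv e k ∨ w = nxt e k := by
  rcases w with q | ⟨e', l⟩
  · rcases h with ⟨h1, h2⟩ | ⟨h1, h2⟩
    · left
      have h1' : k.val = 0 := h1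
      have h2' : T0 e = q := h2
      unfold prv
      rw [dif_pos h1', h2']
    · right
      have h1' : k.val + 1 = ln e.val := h1
      have h2' : T1 e = q := h2
      unfold nxt
      rw [dif_pos h1', h2']
  · obtain ⟨h1, h2⟩ := h
    have h1' : e = e' := h1
    subst h1'
    have h2' : k.val + 1 = l.val ∨ l.val + 1 = k.val := h2
    rcases h2' with h3 | h3
    · right
      have hl := l.isLt
      unfold nxt
      rw [dif_neg (by omega)]
      have : l = ⟨k.val + 1, by omega⟩ := Fin.ext h3.symm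
      rw [← this]
    · left
      unfold prv
      rw [dif_neg (by omega)]
      have : l = ⟨k.val - 1, by omega⟩ := Fin.ext (by simp only; omega)
      rw [← this]

theorem prv_ne_nxt (e : Fin 54) (k : Fin (ln e.val)) : prv e k ≠ nxt e k := by
  unfold prv nxt
  split_ifs with h1 h2 h2
  · intro h
    have h' := Sum.inl.inj h
    have := congrArg Prod.fst h'
    exact e0_ne_e1' e this
  · intro h; cases h
  · intro h; cases h
  · intro h
    have h' := Sum.inr.inj h
    have h3 := eq_of_heq (Sigma.mk.inj h').2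
    have h4 := congrArg Fin.val h3
    simp only at h4
    omega

/-- whether the link `e` is used -/
def X (U : VT → Prop) (e : Fin 54) : Prop := U (.inr ⟨e, ⟨0, ln_pos _⟩⟩)

theorem Cyc.link_succ (C : Cyc U A) (e : Fin 54) (k : ℕ) (hk : k + 1 < ln e.val) :
    U (.inr ⟨e, ⟨k, by omega⟩⟩) ↔ U (.inr ⟨e, ⟨k + 1, hk⟩⟩) := by
  constructor
  · intro h
    have h1 := (C.deg2' _ _ _ (prv_ne_nxt e ⟨k, by omega⟩) (link_nbr e _) h).2
    unfold nxt at h1
    rw [dif_neg (by simp only; omega)] at h1
    exact C.mem _ _ (C.symm _ _ h1)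
  · intro h
    have h1 := (C.deg2' _ _ _ (prv_ne_nxt e ⟨k + 1, hk⟩) (link_nbr e _) h).1
    unfold prv at h1
    rw [dif_neg (by simp)] at h1
    have h2 := C.mem _ _ (C.symm _ _ h1)
    simpa using h2

theorem Cyc.link_all (C : Cyc U A) (e : Fin 54) (k : Fin (ln e.val)) :
    U (.inr ⟨e, k⟩) ↔ X U e := by
  obtain ⟨k, hk⟩ := k
  induction k with
  | zero => rfl
  | succ k ih => rw [← C.link_succ e k hk]; exact ih (by omega)

theorem Cyc.link_T0 (C : Cyc U A) (e : Fin 54) :
    A (.inl (T0 e)) (.inr ⟨e, ⟨0, ln_pos _⟩⟩) ↔ X U e := by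
  constructor
  · intro h; exact C.mem _ _ (C.symm _ _ h)
  · intro h
    have h1 := (C.deg2' _ _ _ (prv_ne_nxt e ⟨0, ln_pos _⟩) (link_nbr e _) h).1
    unfold prv at h1
    rw [dif_pos rfl] at h1
    exact C.symm _ _ h1

theorem Cyc.link_T1 (C : Cyc U A) (e : Fin 54) :
    A (.inl (T1 e)) (.inr ⟨e, ⟨ln e.val - 1, by have := ln_pos e.val; omega⟩⟩) ↔ X U e := by
  have hp := ln_pos e.val
  constructor
  · intro h
    exact (C.link_all e _).1 (C.mem _ _ (C.symm _ _ h))
  · intro h
    have h0 := (C.link_all e ⟨ln e.val - 1, by omega⟩).2 h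
    have h1 := (C.deg2' _ _ _ (prv_ne_nxt e ⟨ln e.val - 1, by omega⟩) (link_nbr e _) h0).2
    unfold nxt at h1
    rw [dif_pos (by simp only; omega)] at h1
    exact C.symm _ _ h1

/-- first inner vertex of a link -/
def firstV (e : Fin 54) : VT := .inr ⟨e, ⟨0, ln_pos _⟩⟩
/-- last inner vertex of a link -/
def lastV (e : Fin 54) : VT := .inr ⟨e, ⟨ln e.val - 1, by have := ln_pos e.val; omega⟩⟩

/-- the link vertex attached to terminal `d` of fragment `i` -/
def lk (i : Fin 36) (d : Fin 3) : VT :=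
  if e0 (inc i d) = (i, d) then firstV (inc i d) else lastV (inc i d)

theorem tm_inj {d d' : Fin 3} (h : tm d = tm d') : d = d' := by
  unfold tm at h
  exact Fin.castLE_injective _ h

theorem Cyc.lk_iff (C : Cyc U A) (i : Fin 36) (d : Fin 3) :
    A (.inl (i, tm d)) (lk i d) ↔ X U (inc i d) := by
  unfold lk
  split_ifs with h
  · have := C.link_T0 (inc i d)
    unfold T0 at this
    rw [h] at this
    exact this
  · have h1 : e1 (inc i d) = (i, d) := (end_inc i d).resolve_left h
    have := C.link_T1 (inc i d)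
    unfold T1 at this
    rw [h1] at this
    exact this

/-- a terminal is adjacent to exactly one link vertex -/
theorem term_link (p : Fin 36 × Fin 9) (y : Σ e : Fin 54, Fin (ln e.val))
    (h : Ad (.inl p) (.inr y)) :
    ∃ d : Fin 3, p.2 = tm d ∧ Sum.inr y = lk p.1 d ∧ y.1 = inc p.1 d := by
  obtain ⟨e, k⟩ := y
  rcases h with ⟨h1, h2⟩ | ⟨h1, h2⟩
  · have h1' : k.val = 0 := h1
    have h2' : T0 e = p := h2
    have hi := inc_e0 e
    have hp : p.1 = (e0 e).1 := by rw [← h2']; rfl
    refine ⟨(e0 e).2, ?_, ?_, ?_⟩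
    · rw [← h2']; rfl
    · rw [hp]
      unfold lk
      rw [hi, if_pos (by simp)]
      have : k = ⟨0, ln_pos _⟩ := Fin.ext h1'
      rw [this]; rfl
    · rw [hp, hi]
  · have h1' : k.val + 1 = ln e.val := h1
    have h2' : T1 e = p := h2
    have hi := inc_e1 e
    have hp : p.1 = (e1 e).1 := by rw [← h2']; rfl
    refine ⟨(e1 e).2, ?_, ?_, ?_⟩
    · rw [← h2']; rfl
    · rw [hp]
      unfold lk
      rw [hi, if_neg (by
        intro h
        exact e0_ne_e1 e h)]
      have : k = ⟨ln e.val - 1, by omega⟩ := Fin.ext (by simp only; omega)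
      rw [this]; rfl
    · rw [hp, hi]

theorem lk_fst (i : Fin 36) (d : Fin 3) : ∃ k, lk i d = .inr ⟨inc i d, k⟩ := by
  unfold lk firstV lastV
  split_ifs
  · exact ⟨_, rfl⟩
  · exact ⟨_, rfl⟩

end Pool.Agent.MP_efe8d0_co
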