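import Pool.Agent.Lib.MP_efe8d0_co.Upper1

set_option autoImplicit false

namespace Pool.Agent.MP_efe8d0_co

variable {U : VT → Prop} {A : VT → VT → Prop}

/-- used inner edge of fragment `i` -/
noncomputable def PE (A : VT → VT → Prop) (i : Fin 36) (a b : Fin 9) : ℕ :=
  ind (A (.inl (i, a)) (.inl (i, b)))
/-- used vertex of fragment `i` -/
noncomputable def UF (U : VT → Prop) (i : Fin 36) (a : Fin 9) : ℕ := ind (U (.inl (i, a)))
/-- used direction at fragment `i` -/
noncomputable def ZD (U : VT → Prop) (i : Fin 36) (d : Fin 3) : ℕ := ind (X U (inc i d))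

theorem PE_le (A : VT → VT → Prop) (i : Fin 36) (a b : Fin 9) : PE A i a b ≤ 1 := ind_le _
theorem UF_le (U : VT → Prop) (i : Fin 36) (a : Fin 9) : UF U i a ≤ 1 := ind_le _
theorem ZD_le (U : VT → Prop) (i : Fin 36) (d : Fin 3) : ZD U i d ≤ 1 := ind_le _

theorem Cyc.PE_symm (C : Cyc U A) (i : Fin 36) (a b : Fin 9) : PE A i a b = PE A i b a :=
  ind_congr ⟨C.symm _ _, C.symm _ _⟩

theorem frag_nbr (i : Fin 36) (a : Fin 9) (w : VT) (h : Ad (.inl (i, a)) w) :
    (∃ b, w = .inl (i, b) ∧ fadj a b = true) ∨ (∃ d, a = tm d ∧ w = lk i d) := by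
  rcases w with ⟨j, b⟩ | y
  · left
    obtain ⟨h1, h2⟩ := h
    have h1' : i = j := h1
    subst h1'
    exact ⟨b, rfl, h2⟩
  · right
    obtain ⟨d, h1, h2, _⟩ := term_link _ _ h
    exact ⟨d, h1, h2⟩

theorem inl_ne {i : Fin 36} {a b : Fin 9} (h : a ≠ b) :
    (Sum.inl (i, a) : VT) ≠ Sum.inl (i, b) := by
  intro h'
  exact h (congrArg Prod.snd (Sum.inl.inj h'))

theorem inl_ne_lk (i j : Fin 36) (a : Fin 9) (d : Fin 3) : (Sum.inl (i, a) : VT) ≠ lk j d := by
  obtain ⟨k, hk⟩ := lk_fst j d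
  rw [hk]
  intro h
  cases h

theorem Cyc.eqF (C : Cyc U A) (i : Fin 36) (a b1 b2 b3 : Fin 9)
    (hb : ∀ b, fadj a b = true → b = b1 ∨ b = b2 ∨ b = b3) (hd : ∀ d : Fin 3, a ≠ tm d)
    (h12 : b1 ≠ b2) (h13 : b1 ≠ b3) (h23 : b2 ≠ b3) :
    PE A i a b1 + PE A i a b2 + PE A i a b3 = 2 * UF U i a := by
  refine C.deg3 _ _ _ _ (inl_ne h12) (inl_ne h13) (inl_ne h23) ?_
  intro w hw
  rcases frag_nbr i a w hw with ⟨b, h1, h2⟩ | ⟨d, h1, _⟩
  · rcases hb b h2 with rfl | rfl | rfl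
    · exact Or.inl h1
    · exact Or.inr (Or.inl h1)
    · exact Or.inr (Or.inr h1)
  · exact absurd h1 (hd d)

theorem Cyc.eqT (C : Cyc U A) (i : Fin 36) (d : Fin 3) (a b1 b2 : Fin 9) (ha : a = tm d)
    (hb : ∀ b, fadj a b = true → b = b1 ∨ b = b2) (h12 : b1 ≠ b2) :
    PE A i a b1 + PE A i a b2 + ZD U i d = 2 * UF U i a := by
  have h := C.deg3 (.inl (i, a)) (.inl (i, b1)) (.inl (i, b2)) (lk i d) (inl_ne h12)
    (inl_ne_lk _ _ _ _) (inl_ne_lk _ _ _ _) ?_
  · have h2 : ind (A (.inl (i, a)) (lk i d)) = ZD U i d := by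
      rw [ha]
      exact ind_congr (C.lk_iff i d)
    rw [h2] at h
    exact h
  · intro w hw
    rcases frag_nbr i a w hw with ⟨b, h1, h2⟩ | ⟨d', h1, h2⟩
    · rcases hb b h2 with rfl | rfl
      · exact Or.inl h1
      · exact Or.inr (Or.inl h1)
    · right; right
      rw [ha] at h1
      rw [h2, tm_inj h1]

/-- a proper part of a fragment cannot be closed under the edges of the cycle -/
theorem Cyc.closedD (C : Cyc U A) (i : Fin 36) (D : Fin 9 → Bool) (L : List (Fin 9 × Fin 9))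
    (a0 : Fin 9) (ha0 : D a0 = true) (hUa : UF U i a0 = 1)
    (b0 : Fin 9) (hb0 : D b0 = false) (hUb : UF U i b0 = 1)
    (hL : ∀ a b, D a = true → D b = false → fadj a b = true → (a, b) ∈ L)
    (hP : ∀ p ∈ L, PE A i p.1 p.2 = 0)
    (hz : ∀ d, D (tm d) = true → ZD U i d = 0) : False := by
  obtain ⟨u, v, huv, ⟨a, hu, ha⟩, hv⟩ := C.conn (fun v => ∃ a, v = .inl (i, a) ∧ D a = true)
    ⟨.inl (i, a0), of_ind hUa, a0, rfl, ha0⟩ ⟨.inl (i, b0), of_ind hUb, by
      rintro ⟨a, h1, h2⟩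
      have := congrArg Prod.snd (Sum.inl.inj h1)
      have h3 : b0 = a := this
      rw [← h3, hb0] at h2
      exact absurd h2 (by simp)⟩
  subst hu
  rcases frag_nbr i a v (C.adj _ _ huv) with ⟨b, h1, h2⟩ | ⟨d, h1, h2⟩
  · subst h1
    have hDb : D b = false := by
      cases hb : D b with
      | false => rfl
      | true => exact absurd ⟨b, rfl, hb⟩ hv
    have := hP _ (hL a b ha hDb h2)
    exact not_of_ind this huv
  · subst h2
    rw [h1] at ha huv
    have h3 := hz d ha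
    exact not_of_ind h3 ((C.lk_iff i d).1 huv)

/-- local computation: third terminal unused, everything covered -/
theorem loc (a b c d e f g0 g1 g2 g3 g4 g5 : ℕ)
    (la : a ≤ 1) (le : e ≤ 1) (lf : f ≤ 1)
    (l0 : g0 ≤ 1) (l3 : g3 ≤ 1) (l4 : g4 ≤ 1) (lc : c ≤ 1) (ld : d ≤ 1)
    (l1 : g1 ≤ 1) (l2 : g2 ≤ 1) (l5 : g5 ≤ 1)
    (t0 : a + b = 1) (t1 : c + d = 1) (t2 : e + f = 2)
    (h0 : g0 + g5 + a = 2) (h1 : g1 + g0 + c = 2) (h2 : g2 + g1 + e = 2)
    (h3 : g3 + g2 + b = 2) (h4 : g4 + g3 + d = 2) (h5 : g5 + g4 + f = 2) :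
    (g4 = 0 ∧ g2 = 0 ∧ a = 0 ∧ c = 0) ∨ (g1 = 0 ∧ g5 = 0 ∧ b = 0 ∧ d = 0) := by
  have he : e = 1 := by omega
  have hf : f = 1 := by omega
  rcases (by omega : a = 0 ∨ a = 1) with ha | ha
  · left
    have q0 : g0 = 1 := by omega
    have q5 : g5 = 1 := by omega
    have q4 : g4 = 0 := by omega
    have q3 : g3 = 1 := by omega
    have qd : d = 1 := by omega
    have qc : c = 0 := by omega
    have q2 : g2 = 0 := by omega
    exact ⟨q4, q2, ha, qc⟩
  · right
    have qb : b = 0 := by omega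
    have q3 : g3 = 1 := by omega
    have q2 : g2 = 1 := by omega
    have q1 : g1 = 0 := by omega
    have q0 : g0 = 1 := by omega
    have qc : c = 1 := by omega
    have qd : d = 0 := by omega
    have q5 : g5 = 0 := by omega
    exact ⟨q1, q5, qb, qd⟩

theorem locz (a b c d e f g0 g1 g2 g3 g4 g5 z0 z1 z2 u0 u1 u2 u3 u4 u5 u6 u7 u8 : ℕ)
    (lz0 : z0 ≤ 1) (lz1 : z1 ≤ 1) (lz2 : z2 ≤ 1)
    (t0 : a + b + z0 = 2 * u0) (t1 : c + d + z1 = 2 * u1) (t2 : e + f + z2 = 2 * u2)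
    (h0 : g0 + g5 + a = 2 * u3) (h1 : g1 + g0 + c = 2 * u4) (h2 : g2 + g1 + e = 2 * u5)
    (h3 : g3 + g2 + b = 2 * u6) (h4 : g4 + g3 + d = 2 * u7) (h5 : g5 + g4 + f = 2 * u8) :
    z0 + z1 + z2 = 0 ∨ z0 + z1 + z2 = 2 := by
  have hs : z0 + z1 + z2 + 2 * (u3 + u4 + u5 + u6 + u7 + u8) =
    2 * (u0 + u1 + u2 + g0 + g1 + g2 + g3 + g4 + g5) := by linarith
  omega

theorem nine (u0 u1 u2 u3 u4 u5 u6 u7 u8 : ℕ) (h0 : u0 ≤ 1) (h1 : u1 ≤ 1) (h2 : u2 ≤ 1)
    (h3 : u3 ≤ 1) (h4 : u4 ≤ 1) (h5 : u5 ≤ 1) (h6 : u6 ≤ 1) (h7 : u7 ≤ 1) (h8 : u8 ≤ 1)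
    (h : 9 ≤ u0 + u1 + u2 + u3 + u4 + u5 + u6 + u7 + u8) :
    u0 = 1 ∧ u1 = 1 ∧ u2 = 1 ∧ u3 = 1 ∧ u4 = 1 ∧ u5 = 1 ∧ u6 = 1 ∧ u7 = 1 ∧ u8 = 1 := by
  omega

theorem Cyc.frag (C : Cyc U A) (i : Fin 36) (Hout : ∃ v, U v ∧ ∀ a, v ≠ .inl (i, a)) :
    (ZD U i 0 + ZD U i 1 + ZD U i 2 = 0 ∨ ZD U i 0 + ZD U i 1 + ZD U i 2 = 2) ∧
    (UF U i 0 + UF U i 1 + UF U i 2 + UF U i 3 + UF U i 4 + UF U i 5 + UF U i 6 + UF U i 7 +
      UF U i 8 ≤ 4 * (ZD U i 0 + ZD U i 1 + ZD U i 2)) := by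
  have t0 := C.eqT i 0 0 3 6 rfl (by decide +kernel) (by decide)
  have t1 := C.eqT i 1 1 4 7 rfl (by decide +kernel) (by decide)
  have t2 := C.eqT i 2 2 5 8 rfl (by decide +kernel) (by decide)
  have h0 := C.eqF i 3 4 8 0 (by decide +kernel) (by decide +kernel) (by decide) (by decide) (by decide)
  have h1 := C.eqF i 4 5 3 1 (by decide +kernel) (by decide +kernel) (by decide) (by decide) (by decide)
  have h2 := C.eqF i 5 6 4 2 (by decide +kernel) (by decide +kernel) (by decide) (by decide) (by decide)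
  have h3 := C.eqF i 6 7 5 0 (by decide +kernel) (by decide +kernel) (by decide) (by decide) (by decide)
  have h4 := C.eqF i 7 8 6 1 (by decide +kernel) (by decide +kernel) (by decide) (by decide) (by decide)
  have h5 := C.eqF i 8 3 7 2 (by decide +kernel) (by decide +kernel) (by decide) (by decide) (by decide)
  rw [C.PE_symm i 3 0, C.PE_symm i 3 8] at h0
  rw [C.PE_symm i 4 1, C.PE_symm i 4 3] at h1
  rw [C.PE_symm i 5 2, C.PE_symm i 5 4] at h2
  rw [C.PE_symm i 6 0, C.PE_symm i 6 5] at h3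
  rw [C.PE_symm i 7 1, C.PE_symm i 7 6] at h4
  rw [C.PE_symm i 8 2, C.PE_symm i 8 7] at h5
  have hz := locz _ _ _ _ _ _ _ _ _ _ _ _ _ _ _ _ _ _ _ _ _ _ _ _
    (ZD_le U i 0) (ZD_le U i 1) (ZD_le U i 2) t0 t1 t2 h0 h1 h2 h3 h4 h5
  refine ⟨hz, ?_⟩
  rcases hz with hz | hz
  · -- no direction used
    have hall : ∀ a, UF U i a = 0 := by
      intro a
      by_contra hne
      have ha : U (.inl (i, a)) := of_ind_pos (Nat.pos_of_ne_zero hne)
      obtain ⟨w, hw, hw'⟩ := Hout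
      obtain ⟨u, v, huv, ⟨a', hu⟩, hv⟩ := C.conn (fun v => ∃ a, v = .inl (i, a))
        ⟨.inl (i, a), ha, a, rfl⟩ ⟨w, hw, by rintro ⟨b, hb⟩; exact hw' b hb⟩
      subst hu
      rcases frag_nbr i a' v (C.adj _ _ huv) with ⟨b, h1, h2⟩ | ⟨d, h1, h2⟩
      · exact hv ⟨b, h1⟩
      · subst h2
        rw [h1] at huv
        have h3 := ind_true ((C.lk_iff i d).1 huv)
        have h4 : ZD U i d = 1 := h3
        have h5 : d = 0 ∨ d = 1 ∨ d = 2 := by
          clear t0 t1 t2 h0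
          omega
        clear t0 t1 t2 h0
        rcases h5 with rfl | rfl | rfl <;> omega
    rw [hall, hall, hall, hall, hall, hall, hall, hall, hall]
    omega
  · by_contra hbig
    obtain ⟨c0, c1, c2, c3, c4, c5, c6, c7, c8⟩ := nine _ _ _ _ _ _ _ _ _
      (UF_le U i 0) (UF_le U i 1) (UF_le U i 2) (UF_le U i 3) (UF_le U i 4) (UF_le U i 5)
      (UF_le U i 6) (UF_le U i 7) (UF_le U i 8) (by rw [hz] at hbig; exact Nat.lt_of_not_le hbig)
    have z0 := ZD_le U i 0
    have z1 := ZD_le U i 1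
    have z2 := ZD_le U i 2
    rw [c0] at t0
    rw [c1] at t1
    rw [c2] at t2
    rw [c3] at h0
    rw [c4] at h1
    rw [c5] at h2
    rw [c6] at h3
    rw [c7] at h4
    rw [c8] at h5
    clear hbig Hout
    have hc : (ZD U i 0 = 0) ∨ (ZD U i 1 = 0) ∨ (ZD U i 2 = 0) := by
      clear t0 t1 t2 h0 h1 h2 h3 h4 h5
      omega
    rcases hc with hc | hc | hc
    · have y1 : ZD U i 1 = 1 := by clear t0 t1 t2 h0 h1 h2 h3 h4 h5; omega
      have y2 : ZD U i 2 = 1 := by clear t0 t1 t2 h0 h1 h2 h3 h4 h5; omega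
      have hd : (PE A i 8 3 = 0 ∧ PE A i 6 7 = 0 ∧ PE A i 1 4 = 0 ∧ PE A i 2 5 = 0) ∨
          (PE A i 5 6 = 0 ∧ PE A i 3 4 = 0 ∧ PE A i 1 7 = 0 ∧ PE A i 2 8 = 0) :=
        loc (PE A i 1 4) (PE A i 1 7) (PE A i 2 5) (PE A i 2 8) (PE A i 0 6) (PE A i 0 3)
          (PE A i 4 5) (PE A i 5 6) (PE A i 6 7) (PE A i 7 8) (PE A i 8 3) (PE A i 3 4)
          (ind_le _) (ind_le _) (ind_le _) (ind_le _) (ind_le _) (ind_le _) (ind_le _) (ind_le _)
          (ind_le _) (ind_le _) (ind_le _) (by rw [y1] at t1; omega) (by rw [y2] at t2; omega)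
          (by rw [hc] at t0; omega) h1 h2 h3 h4 h5 h0
      rcases hd with ⟨p1, p2, p3, p4⟩ | ⟨p1, p2, p3, p4⟩
      · refine C.closedD i (fun a => [0, 3, 4, 5, 6].contains a) [(3, 8), (6, 7), (4, 1), (5, 2)]
          0 (by decide) c0 1 (by decide) c1 (by decide +kernel) ?_ ?_
        · intro p hp
          rw [C.PE_symm i 8 3] at p1
          rw [C.PE_symm i 1 4] at p3
          rw [C.PE_symm i 2 5] at p4
          simp only [List.mem_cons, List.not_mem_nil, or_false] at hp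
          rcases hp with rfl | rfl | rfl | rfl <;> assumption
        · intro d hd
          have h5 : d = 0 ∨ d = 1 ∨ d = 2 := by
            clear t0 t1 t2 h0 h1 h2 h3 h4 h5
            omega
          rcases h5 with rfl | rfl | rfl
          · exact hc
          · exact absurd hd (by decide)
          · exact absurd hd (by decide)
      · refine C.closedD i (fun a => [0, 6, 7, 8, 3].contains a) [(6, 5), (3, 4), (7, 1), (8, 2)]
          0 (by decide) c0 1 (by decide) c1 (by decide +kernel) ?_ ?_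
        · intro p hp
          rw [C.PE_symm i 5 6] at p1
          rw [C.PE_symm i 1 7] at p3
          rw [C.PE_symm i 2 8] at p4
          simp only [List.mem_cons, List.not_mem_nil, or_false] at hp
          rcases hp with rfl | rfl | rfl | rfl <;> assumption
        · intro d hd
          have h5 : d = 0 ∨ d = 1 ∨ d = 2 := by
            clear t0 t1 t2 h0 h1 h2 h3 h4 h5
            omega
          rcases h5 with rfl | rfl | rfl
          · exact hc
          · exact absurd hd (by decide)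
          · exact absurd hd (by decide)
    · have y0 : ZD U i 0 = 1 := by clear t0 t1 t2 h0 h1 h2 h3 h4 h5; omega
      have y2 : ZD U i 2 = 1 := by clear t0 t1 t2 h0 h1 h2 h3 h4 h5; omega
      have hd : (PE A i 3 4 = 0 ∧ PE A i 7 8 = 0 ∧ PE A i 2 5 = 0 ∧ PE A i 0 6 = 0) ∨
          (PE A i 6 7 = 0 ∧ PE A i 4 5 = 0 ∧ PE A i 2 8 = 0 ∧ PE A i 0 3 = 0) :=
        loc (PE A i 2 5) (PE A i 2 8) (PE A i 0 6) (PE A i 0 3) (PE A i 1 7) (PE A i 1 4)
          (PE A i 5 6) (PE A i 6 7) (PE A i 7 8) (PE A i 8 3) (PE A i 3 4) (PE A i 4 5)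
          (ind_le _) (ind_le _) (ind_le _) (ind_le _) (ind_le _) (ind_le _) (ind_le _) (ind_le _)
          (ind_le _) (ind_le _) (ind_le _) (by rw [y2] at t2; omega) (by rw [y0] at t0; omega)
          (by rw [hc] at t1; omega) h2 h3 h4 h5 h0 h1
      rcases hd with ⟨p1, p2, p3, p4⟩ | ⟨p1, p2, p3, p4⟩
      · refine C.closedD i (fun a => [1, 4, 5, 6, 7].contains a) [(4, 3), (7, 8), (5, 2), (6, 0)]
          1 (by decide) c1 0 (by decide) c0 (by decide +kernel) ?_ ?_
        · intro p hp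
          rw [C.PE_symm i 3 4] at p1
          rw [C.PE_symm i 2 5] at p3
          rw [C.PE_symm i 0 6] at p4
          simp only [List.mem_cons, List.not_mem_nil, or_false] at hp
          rcases hp with rfl | rfl | rfl | rfl <;> assumption
        · intro d hd
          have h5 : d = 0 ∨ d = 1 ∨ d = 2 := by
            clear t0 t1 t2 h0 h1 h2 h3 h4 h5
            omega
          rcases h5 with rfl | rfl | rfl
          · exact absurd hd (by decide)
          · exact hc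
          · exact absurd hd (by decide)
      · refine C.closedD i (fun a => [1, 7, 8, 3, 4].contains a) [(7, 6), (4, 5), (8, 2), (3, 0)]
          1 (by decide) c1 0 (by decide) c0 (by decide +kernel) ?_ ?_
        · intro p hp
          rw [C.PE_symm i 6 7] at p1
          rw [C.PE_symm i 2 8] at p3
          rw [C.PE_symm i 0 3] at p4
          simp only [List.mem_cons, List.not_mem_nil, or_false] at hp
          rcases hp with rfl | rfl | rfl | rfl <;> assumption
        · intro d hd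
          have h5 : d = 0 ∨ d = 1 ∨ d = 2 := by
            clear t0 t1 t2 h0 h1 h2 h3 h4 h5
            omega
          rcases h5 with rfl | rfl | rfl
          · exact absurd hd (by decide)
          · exact hc
          · exact absurd hd (by decide)
    · have y0 : ZD U i 0 = 1 := by clear t0 t1 t2 h0 h1 h2 h3 h4 h5; omega
      have y1 : ZD U i 1 = 1 := by clear t0 t1 t2 h0 h1 h2 h3 h4 h5; omega
      have hd : (PE A i 7 8 = 0 ∧ PE A i 5 6 = 0 ∧ PE A i 0 3 = 0 ∧ PE A i 1 4 = 0) ∨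
          (PE A i 4 5 = 0 ∧ PE A i 8 3 = 0 ∧ PE A i 0 6 = 0 ∧ PE A i 1 7 = 0) :=
        loc (PE A i 0 3) (PE A i 0 6) (PE A i 1 4) (PE A i 1 7) (PE A i 2 5) (PE A i 2 8)
          (PE A i 3 4) (PE A i 4 5) (PE A i 5 6) (PE A i 6 7) (PE A i 7 8) (PE A i 8 3)
          (ind_le _) (ind_le _) (ind_le _) (ind_le _) (ind_le _) (ind_le _) (ind_le _) (ind_le _)
          (ind_le _) (ind_le _) (ind_le _) (by rw [y0] at t0; omega) (by rw [y1] at t1; omega)
          (by rw [hc] at t2; omega) h0 h1 h2 h3 h4 h5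
      rcases hd with ⟨p1, p2, p3, p4⟩ | ⟨p1, p2, p3, p4⟩
      · refine C.closedD i (fun a => [2, 8, 3, 4, 5].contains a) [(8, 7), (5, 6), (3, 0), (4, 1)]
          2 (by decide) c2 0 (by decide) c0 (by decide +kernel) ?_ ?_
        · intro p hp
          rw [C.PE_symm i 7 8] at p1
          rw [C.PE_symm i 0 3] at p3
          rw [C.PE_symm i 1 4] at p4
          simp only [List.mem_cons, List.not_mem_nil, or_false] at hp
          rcases hp with rfl | rfl | rfl | rfl <;> assumption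
        · intro d hd
          have h5 : d = 0 ∨ d = 1 ∨ d = 2 := by
            clear t0 t1 t2 h0 h1 h2 h3 h4 h5
            omega
          rcases h5 with rfl | rfl | rfl
          · exact absurd hd (by decide)
          · exact absurd hd (by decide)
          · exact hc
      · refine C.closedD i (fun a => [2, 5, 6, 7, 8].contains a) [(5, 4), (8, 3), (6, 0), (7, 1)]
          2 (by decide) c2 0 (by decide) c0 (by decide +kernel) ?_ ?_
        · intro p hp
          rw [C.PE_symm i 4 5] at p1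
          rw [C.PE_symm i 0 6] at p3
          rw [C.PE_symm i 1 7] at p4
          simp only [List.mem_cons, List.not_mem_nil, or_false] at hp
          rcases hp with rfl | rfl | rfl | rfl <;> assumption
        · intro d hd
          have h5 : d = 0 ∨ d = 1 ∨ d = 2 := by
            clear t0 t1 t2 h0 h1 h2 h3 h4 h5
            omega
          rcases h5 with rfl | rfl | rfl
          · exact absurd hd (by decide)
          · exact absurd hd (by decide)
          · exact hc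

end Pool.Agent.MP_efe8d0_co
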