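import Pool.Agent.Lib.MP_efe8d0_co.Upper2

set_option autoImplicit false

namespace Pool.Agent.MP_efe8d0_co

variable {U : VT → Prop} {A : VT → VT → Prop}

open Classical in
/-- the used links as a boolean function on edge numbers -/
noncomputable def xf (U : VT → Prop) (e : ℕ) : Bool := decide (∃ h : e < 54, X U ⟨e, h⟩)

theorem xf_iff (U : VT → Prop) (e : Fin 54) : xf U e.val = true ↔ X U e := by
  unfold xf
  simp only [decide_eq_true_eq]
  constructor
  · rintro ⟨h, hx⟩; exact hx
  · intro h; exact ⟨e.isLt, h⟩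

theorem b2n_xf (U : VT → Prop) (e : Fin 54) : b2n (xf U e.val) = ind (X U e) := by
  by_cases h : X U e
  · rw [ind_true h, (xf_iff U e).2 h]; rfl
  · rw [ind_false h]
    have : xf U e.val = false := by
      cases hx : xf U e.val with
      | false => rfl
      | true => exact absurd ((xf_iff U e).1 hx) h
    rw [this]; rfl

theorem xf_lt (U : VT → Prop) (e : ℕ) (h : xf U e = true) : e < 54 := by
  unfold xf at h
  simp only [decide_eq_true_eq] at h
  exact h.1

theorem Cyc.val (C : Cyc U A) (Hout : ∀ i, ∃ v, U v ∧ ∀ a, v ≠ .inl (i, a)) : Val (xf U) := by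
  refine ⟨?_, ?_, xf_lt U⟩
  · intro t ht
    obtain ⟨i, hi⟩ := nodes_inc t ht
    have h := (C.frag i (Hout i)).1
    unfold ZD at h
    rw [← b2n_xf, ← b2n_xf, ← b2n_xf] at h
    rw [hi]
    simp only
    revert h
    cases xf U (inc i 0).val <;> cases xf U (inc i 1).val <;> cases xf U (inc i 2).val <;>
      simp [b2n]
  · intro K hne hKx hcl f hf
    have hf54 := xf_lt U f hf
    by_contra hKf
    obtain ⟨e, he⟩ := hne
    have hxe := hKx e he
    have he54 := xf_lt U e hxe
    have hcl' : ∀ (i : Fin 36) (d d' : Fin 3), K (inc i d).val = true →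
        xf U (inc i d').val = true → K (inc i d').val = true := by
      intro i d d' h1 h2
      have hm := inc_nodes i
      refine hcl _ hm (inc i d).val (inc i d').val ?_ ?_ h1 h2
      · have h5 : d = 0 ∨ d = 1 ∨ d = 2 := by omega
        rcases h5 with rfl | rfl | rfl <;> simp
      · have h5 : d' = 0 ∨ d' = 1 ∨ d' = 2 := by omega
        rcases h5 with rfl | rfl | rfl <;> simp
    let P : VT → Prop := fun v => match v with
      | .inl p => ∃ d : Fin 3, K (inc p.1 d).val = true
      | .inr y => K y.1.val = true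
    obtain ⟨a, b, hab, ha, hb⟩ := C.conn P
      ⟨.inr ⟨⟨e, he54⟩, ⟨0, ln_pos _⟩⟩, (xf_iff U ⟨e, he54⟩).1 hxe, he⟩
      ⟨.inr ⟨⟨f, hf54⟩, ⟨0, ln_pos _⟩⟩, (xf_iff U ⟨f, hf54⟩).1 hf, hKf⟩
    have hadj := C.adj _ _ hab
    rcases a with p | y
    · rcases b with q | z
      · have h1 : p.1 = q.1 := hadj.1
        apply hb
        obtain ⟨d, hd⟩ := ha
        exact ⟨d, by rw [← h1]; exact hd⟩
      · obtain ⟨d, _, _, h3⟩ := term_link p z hadj
        obtain ⟨d', hd'⟩ := ha
        have hU : U (.inr z) := C.mem _ _ (C.symm _ _ hab)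
        have hX : X U z.1 := (C.link_all z.1 z.2).1 hU
        have hx : xf U (inc p.1 d).val = true := by
          rw [← h3]; exact (xf_iff U z.1).2 hX
        have := hcl' p.1 d' d hd' hx
        apply hb
        show K z.1.val = true
        rw [h3]; exact this
    · rcases b with q | z
      · obtain ⟨d, _, _, h3⟩ := term_link q y (Ad_symm _ _ hadj)
        apply hb
        refine ⟨d, ?_⟩
        rw [← h3]; exact ha
      · have h1 : y.1 = z.1 := hadj.1
        apply hb
        show K z.1.val = true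
        rw [← h1]; exact ha

theorem sum_inc (f : Fin 54 → ℕ) :
    ∑ i : Fin 36, (f (inc i 0) + f (inc i 1) + f (inc i 2)) = 2 * ∑ e : Fin 54, f e := by
  have h1 : ∑ i : Fin 36, (f (inc i 0) + f (inc i 1) + f (inc i 2)) =
      ∑ p : Fin 36 × Fin 3, f (inc p.1 p.2) := by
    rw [Fintype.sum_prod_type]
    refine Finset.sum_congr rfl ?_
    intro i _
    rw [Fin.sum_univ_three]
  rw [h1]
  have h2 : ∑ p : Fin 36 × Fin 3, f (inc p.1 p.2) =
      ∑ e : Fin 54, ∑ p ∈ Finset.univ.filter (fun p : Fin 36 × Fin 3 => inc p.1 p.2 = e),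
        f (inc p.1 p.2) := by
    rw [Finset.sum_fiberwise]
  rw [h2, Finset.mul_sum]
  refine Finset.sum_congr rfl ?_
  intro e _
  have h3 : ∑ p ∈ Finset.univ.filter (fun p : Fin 36 × Fin 3 => inc p.1 p.2 = e),
      f (inc p.1 p.2) = ∑ p ∈ Finset.univ.filter (fun p : Fin 36 × Fin 3 => inc p.1 p.2 = e),
      f e := by
    refine Finset.sum_congr rfl ?_
    intro p hp
    rw [(Finset.mem_filter.1 hp).2]
  rw [h3, Finset.sum_const, inc_fiber e]
  simp

theorem sum_W (x : ℕ → Bool) :
    ∑ e : Fin 54, (8 + ln e.val) * b2n (x e.val) = 3 * W x := by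
  rw [Fin.sum_univ_eq_sum_range (fun e => (8 + ln e) * b2n (x e)) 54]
  simp only [Finset.sum_range_succ, Finset.sum_range_zero, W, sl, hexL, crsL, railL, List.map_cons,
    List.map_nil, List.sum_cons, List.sum_nil]
  have a : ∀ n, n < 12 → ln n = 28 := by intro n h; unfold ln; rw [if_pos h]
  have b : ∀ n, 12 ≤ n → n < 24 → ln n = 13 := by
    intro n h1 h2; unfold ln; rw [if_neg (by omega), if_pos h2]
  have c : ∀ n, 24 ≤ n → ln n = 1 := by
    intro n h1; unfold ln; rw [if_neg (by omega), if_neg (by omega)]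
  rw [a 0 (by omega), a 1 (by omega), a 2 (by omega), a 3 (by omega), a 4 (by omega),
    a 5 (by omega), a 6 (by omega), a 7 (by omega), a 8 (by omega), a 9 (by omega),
    a 10 (by omega), a 11 (by omega)]
  rw [b 12 (by omega) (by omega), b 13 (by omega) (by omega), b 14 (by omega) (by omega),
    b 15 (by omega) (by omega), b 16 (by omega) (by omega), b 17 (by omega) (by omega),
    b 18 (by omega) (by omega), b 19 (by omega) (by omega), b 20 (by omega) (by omega),
    b 21 (by omega) (by omega), b 22 (by omega) (by omega), b 23 (by omega) (by omega)]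
  rw [c 24 (by omega), c 25 (by omega), c 26 (by omega), c 27 (by omega), c 28 (by omega),
    c 29 (by omega), c 30 (by omega), c 31 (by omega), c 32 (by omega), c 33 (by omega),
    c 34 (by omega), c 35 (by omega), c 36 (by omega), c 37 (by omega), c 38 (by omega),
    c 39 (by omega), c 40 (by omega), c 41 (by omega), c 42 (by omega), c 43 (by omega),
    c 44 (by omega), c 45 (by omega), c 46 (by omega), c 47 (by omega), c 48 (by omega),
    c 49 (by omega), c 50 (by omega), c 51 (by omega), c 52 (by omega), c 53 (by omega)]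
  ring

theorem sum_ind_le_of_inj {V : Type} [Fintype V] (P : V → Prop) {n : ℕ} (f : V → Fin n)
    (hf : ∀ v w, P v → P w → f v = f w → v = w) : ∑ v : V, ind (P v) ≤ n := by
  classical
  have h1 : ∑ v : V, ind (P v) = (Finset.univ.filter (fun v : V => P v)).card := by
    rw [Finset.card_filter]
    refine Finset.sum_congr rfl ?_
    intro v _
    by_cases h : P v
    · rw [ind_true h, if_pos h]
    · rw [ind_false h, if_neg h]
  rw [h1]
  have h2 : (Finset.univ.filter (fun v : V => P v)).card ≤ (Finset.univ : Finset (Fin n)).card := by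
    refine Finset.card_le_card_of_injOn f (fun _ _ => Finset.mem_coe.2 (Finset.mem_univ _)) ?_
    intro v hv w hw hvw
    exact hf v w (Finset.mem_filter.1 (Finset.mem_coe.1 hv)).2
      (Finset.mem_filter.1 (Finset.mem_coe.1 hw)).2 hvw
  rw [Finset.card_univ, Fintype.card_fin] at h2
  exact h2

/-- position of a vertex in its fragment -/
def posF : VT → Fin 9
  | .inl p => p.2
  | .inr _ => 0

/-- a cycle has at most 618 vertices -/
theorem Cyc.card_le (C : Cyc U A) : ∑ v : VT, ind (U v) ≤ 618 := by
  classical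
  by_cases hin : ∃ i, ∀ v, U v → ∃ a, v = .inl (i, a)
  · obtain ⟨i, hi⟩ := hin
    have h9 : ∑ v : VT, ind (U v) ≤ 9 := by
      refine sum_ind_le_of_inj U posF ?_
      intro v w hv hw hvw
      obtain ⟨a, ha⟩ := hi v hv
      obtain ⟨b, hb⟩ := hi w hw
      subst ha
      subst hb
      have hab : a = b := hvw
      rw [hab]
    exact le_trans h9 (by norm_num)
  · have Hout : ∀ i, ∃ v, U v ∧ ∀ a, v ≠ .inl (i, a) := by
      intro i
      by_contra hc
      apply hin
      refine ⟨i, ?_⟩
      intro v hv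
      by_contra hv'
      apply hc
      exact ⟨v, hv, fun a ha => hv' ⟨a, ha⟩⟩
    have hval := C.val Hout
    have hW := W_le _ hval
    rw [Fintype.sum_sum_type, Fintype.sum_prod_type, Fintype.sum_sigma]
    have h1 : ∑ i : Fin 36, ∑ a : Fin 9, ind (U (.inl (i, a))) ≤
        4 * ∑ i : Fin 36, (ZD U i 0 + ZD U i 1 + ZD U i 2) := by
      rw [Finset.mul_sum]
      refine Finset.sum_le_sum ?_
      intro i _
      have h := (C.frag i (Hout i)).2
      have h' : ∑ a : Fin 9, ind (U (.inl (i, a))) = UF U i 0 + UF U i 1 + UF U i 2 + UF U i 3 +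
          UF U i 4 + UF U i 5 + UF U i 6 + UF U i 7 + UF U i 8 := by
        rw [Fin.sum_univ_castSucc, Fin.sum_univ_eight]
        rfl
      rw [h']
      exact h
    have h2 : ∑ i : Fin 36, (ZD U i 0 + ZD U i 1 + ZD U i 2) = 2 * ∑ e : Fin 54, ind (X U e) :=
      sum_inc (fun e => ind (X U e))
    have h3 : ∑ e : Fin 54, ∑ k : Fin (ln e.val), ind (U (.inr ⟨e, k⟩)) =
        ∑ e : Fin 54, ln e.val * ind (X U e) := by
      refine Finset.sum_congr rfl ?_
      intro e _
      have : ∀ k : Fin (ln e.val), ind (U (.inr ⟨e, k⟩)) = ind (X U e) :=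
        fun k => ind_congr (C.link_all e k)
      simp only [this]
      rw [Finset.sum_const, Finset.card_univ, Fintype.card_fin, smul_eq_mul]
    have h4 : ∑ e : Fin 54, (8 + ln e.val) * ind (X U e) = 3 * W (xf U) := by
      rw [← sum_W]
      refine Finset.sum_congr rfl ?_
      intro e _
      rw [b2n_xf]
    have h5 : ∑ e : Fin 54, (8 + ln e.val) * ind (X U e) =
        8 * ∑ e : Fin 54, ind (X U e) + ∑ e : Fin 54, ln e.val * ind (X U e) := by
      rw [Finset.mul_sum, ← Finset.sum_add_distrib]
      refine Finset.sum_congr rfl ?_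
      intro e _
      ring
    rw [h3]
    have h6 : ∑ i : Fin 36, ∑ a : Fin 9, ind (U (.inl (i, a))) ≤ 8 * ∑ e : Fin 54, ind (X U e) := by
      rw [h2] at h1
      omega
    omega

end Pool.Agent.MP_efe8d0_co
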