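import Pool.Agent.Lib.MP_efe8d0_co.Upper3

set_option autoImplicit false

namespace Pool.Agent.MP_efe8d0_co

theorem walk_conn {V : Type} {H : SimpleGraph V} {w : V} (d : H.Walk w w) (P : V → Prop)
    (h1 : ∃ u, u ∈ d.support ∧ P u) (h2 : ∃ u, u ∈ d.support ∧ ¬ P u) :
    ∃ a b, d.toSubgraph.Adj a b ∧ P a ∧ ¬ P b := by
  obtain ⟨u, hu, hPu⟩ := h1
  obtain ⟨v, hv, hPv⟩ := h2
  have hc := d.toSubgraph_connected
  have hu' : u ∈ d.toSubgraph.verts := (d.mem_verts_toSubgraph).2 hu
  have hv' : v ∈ d.toSubgraph.verts := (d.mem_verts_toSubgraph).2 hv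
  obtain ⟨p⟩ := hc.coe.preconnected ⟨u, hu'⟩ ⟨v, hv'⟩
  obtain ⟨dd, _, ha, hb⟩ := p.exists_boundary_dart {x | P x.1} hPu hPv
  exact ⟨dd.fst.1, dd.snd.1, dd.adj, ha, hb⟩

theorem walk_length {V : Type} [Fintype V] {H : SimpleGraph V} {w : V} (d : H.Walk w w)
    (hd : d.IsCycle) : d.length = ∑ v : V, ind (v ∈ d.support) := by
  classical
  have h1 : d.support.tail.toFinset.card = d.length := by
    rw [List.toFinset_card_of_nodup hd.support_nodup]
    simp
  have h2 : d.support.tail.toFinset = Finset.univ.filter (fun v : V => v ∈ d.support) := by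
    ext v
    rw [List.mem_toFinset, Finset.mem_filter]
    constructor
    · intro h; exact ⟨Finset.mem_univ _, List.mem_of_mem_tail h⟩
    · rintro ⟨_, h⟩
      rw [SimpleGraph.Walk.mem_support_iff] at h
      rcases h with h | h
      · rw [h]
        exact SimpleGraph.Walk.end_mem_tail_support hd.not_nil
      · exact h
  rw [← h1, h2, Finset.card_filter]
  refine Finset.sum_congr rfl ?_
  intro v _
  by_cases h : v ∈ d.support
  · rw [ind_true h, if_pos h]
  · rw [ind_false h, if_neg h]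

theorem walk_cyc {w : VT} (d : G.Walk w w) (hd : d.IsCycle) :
    Cyc (fun v => v ∈ d.support) (fun u v => d.toSubgraph.Adj u v) where
  symm u v h := d.toSubgraph.adj_symm h
  adj u v h := d.toSubgraph.adj_sub h
  mem u v h := (d.mem_verts_toSubgraph).1 (d.toSubgraph.edge_vert h)
  deg2 u h := hd.ncard_neighborSet_toSubgraph_eq_two h
  conn P h1 h2 := walk_conn d P h1 h2

/-- every cycle has at most 618 vertices -/
theorem cycle_le {w : VT} (d : G.Walk w w) (hd : d.IsCycle) : d.length ≤ 618 := by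
  rw [walk_length d hd]
  exact (walk_cyc d hd).card_le

end Pool.Agent.MP_efe8d0_co
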